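import Mathlib

set_option autoImplicit false

namespace Pool.Agent.Y281.CR
open Filter Topology Metric

theorem lg {R : ℂ → ℂ} {z0 : ℂ} (ha : AnalyticAt ℂ R z0) (h0 : R z0 ≠ 0) :
    ∀ᶠ z in 𝓝 z0, AnalyticAt ℂ (fun z => Complex.log (R z / R z0)) z ∧
      Complex.exp (Complex.log (R z / R z0)) = R z / R z0 ∧
      HasDerivAt (fun z => Complex.log (R z / R z0)) (deriv R z / R z) z := by
  have hc : ContinuousAt (fun z => R z / R z0) z0 := ha.continuousAt.div_const _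
  have h1 : ∀ᶠ z in 𝓝 z0, R z / R z0 ∈ Complex.slitPlane := by
    apply hc.eventually_mem
    rw [div_self h0]
    exact Complex.isOpen_slitPlane.mem_nhds Complex.one_mem_slitPlane
  filter_upwards [h1, ha.eventually_analyticAt] with z hz haz
  have hne : R z / R z0 ≠ 0 := Complex.slitPlane_ne_zero hz
  refine ⟨(haz.div_const).clog hz, Complex.exp_log hne, ?_⟩
  have h2 := (haz.differentiableAt.hasDerivAt.div_const (R z0)).clog hz
  convert h2 using 1
  have h3 : R z ≠ 0 := fun h => hne (by rw [h, zero_div])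
  field_simp

/-- **density of the solutions** -/
theorem dense_roots {R1 R2 : ℂ → ℂ} {z0 : ℂ} (hz : z0 ≠ 0) (ha1 : AnalyticAt ℂ R1 z0)
    (ha2 : AnalyticAt ℂ R2 z0) (h10 : R1 z0 ≠ 0) (h20 : R2 z0 ≠ 0)
    (hL : Real.log ‖R1 z0‖ * Real.log ‖R2 z0‖ < 0)
    (hnc : ∀ θ : ℝ, 0 < θ → ¬ ∀ᶠ z in 𝓝 z0, deriv R1 z / R1 z + θ * (deriv R2 z / R2 z) = 0)
    {ε : ℝ} (hε : 0 < ε) :
    ∃ z, ‖z - z0‖ < ε ∧ z ≠ 0 ∧ ∃ a b : ℕ, 1 ≤ a ∧ 1 ≤ b ∧ z * R1 z ^ a * R2 z ^ b = -1 := by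
  set L1 := Real.log ‖R1 z0‖ with hL1
  set L2 := Real.log ‖R2 z0‖ with hL2
  have hL20 : L2 ≠ 0 := by
    intro h
    rw [h, mul_zero] at hL
    exact lt_irrefl _ hL
  obtain ⟨θ, hθ⟩ : ∃ θ, θ = -L1 / L2 := ⟨_, rfl⟩
  have hθ0 : 0 < θ := by
    rw [hθ]
    rcases lt_or_gt_of_ne hL20 with h | h
    · have : 0 < L1 := by nlinarith
      exact div_pos_of_neg_of_neg (by linarith) h
    · have : L1 < 0 := by nlinarith
      exact div_pos (by linarith) h
  have hθL : θ * L2 = -L1 := by rw [hθ]; field_simp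
  obtain ⟨h1, hh1⟩ : ∃ h : ℂ → ℂ, h = fun z => Complex.log (R1 z / R1 z0) := ⟨_, rfl⟩
  obtain ⟨h2, hh2⟩ : ∃ h : ℂ → ℂ, h = fun z => Complex.log (R2 z / R2 z0) := ⟨_, rfl⟩
  obtain ⟨h3, hh3⟩ : ∃ h : ℂ → ℂ, h = fun z => Complex.log (z / z0) := ⟨_, rfl⟩
  have e1 := lg ha1 h10
  have e2 := lg ha2 h20
  have e3 := lg (R := fun z => z) (z0 := z0) analyticAt_id hz
  rw [← hh1] at e1
  rw [← hh2] at e2
  simp only [← hh3] at e3
  have a1 : h1 z0 = 0 := by rw [hh1]; simp [div_self h10]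
  have a2 : h2 z0 = 0 := by rw [hh2]; simp [div_self h20]
  have a3 : h3 z0 = 0 := by rw [hh3]; simp [div_self hz]
  have x1 : ∀ z, h1 z = Complex.log (R1 z / R1 z0) := fun z => by rw [hh1]
  have x2 : ∀ z, h2 z = Complex.log (R2 z / R2 z0) := fun z => by rw [hh2]
  have x3 : ∀ z, h3 z = Complex.log (z / z0) := fun z => by rw [hh3]
  obtain ⟨H, hH⟩ : ∃ H : ℂ → ℂ, H = fun z => h1 z + θ * h2 z := ⟨_, rfl⟩
  have xH : ∀ z, H z = h1 z + θ * h2 z := fun z => by rw [hH]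
  have hHan : AnalyticAt ℂ H z0 := by
    rw [hH]
    exact e1.self_of_nhds.1.add (analyticAt_const.mul e2.self_of_nhds.1)
  have hHne : ∀ᶠ z in 𝓝[≠] z0, H z ≠ 0 := by
    rcases hHan.eventually_eq_zero_or_eventually_ne_zero with h | h
    · exfalso
      apply hnc θ hθ0
      filter_upwards [h.eventually_nhds, e1, e2] with z hz1 hz2 hz3
      have d1 : HasDerivAt H (deriv R1 z / R1 z + θ * (deriv R2 z / R2 z)) z := by
        rw [hH]
        exact hz2.2.2.add (hz3.2.2.const_mul _)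
      have d2 : HasDerivAt H 0 z := (hasDerivAt_const z (0 : ℂ)).congr_of_eventuallyEq hz1
      exact d1.unique d2
    · exact h
  rw [eventually_nhdsWithin_iff] at hHne
  obtain ⟨r1, hr1, hball⟩ := Metric.eventually_nhds_iff_ball.mp
    (hHne.and (e1.and (e2.and e3)))
  obtain ⟨r, hr⟩ : ∃ r, r = min (r1 / 2) (ε / 2) := ⟨_, rfl⟩
  have hr0 : 0 < r := by rw [hr]; positivity
  have hrr1 : r < r1 := by
    rw [hr]
    exact lt_of_le_of_lt (min_le_left _ _) (by linarith)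
  have hrε : r < ε := by
    rw [hr]
    exact lt_of_le_of_lt (min_le_right _ _) (by linarith)
  have hsub : closedBall z0 r ⊆ ball z0 r1 := closedBall_subset_ball hrr1
  have hssub : sphere z0 r ⊆ ball z0 r1 := sphere_subset_closedBall.trans hsub
  have c1 : ∀ z ∈ ball z0 r1, AnalyticAt ℂ h1 z := fun z hz => (hball z hz).2.1.1
  have c2 : ∀ z ∈ ball z0 r1, AnalyticAt ℂ h2 z := fun z hz => (hball z hz).2.2.1.1
  have c3 : ∀ z ∈ ball z0 r1, AnalyticAt ℂ h3 z := fun z hz => (hball z hz).2.2.2.1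
  have cH : ∀ z ∈ ball z0 r1, AnalyticAt ℂ H z := fun z hz => by
    rw [hH]
    exact (c1 z hz).add (analyticAt_const.mul (c2 z hz))
  have hsph : (sphere z0 r).Nonempty := (NormedSpace.sphere_nonempty).mpr hr0.le
  have hcp : IsCompact (sphere z0 r) := isCompact_sphere _ _
  obtain ⟨zm, hzm, hmin⟩ := hcp.exists_isMinOn hsph
    (f := fun z => ‖H z‖) (fun z hz => (cH z (hssub hz)).continuousAt.norm.continuousWithinAt)
  obtain ⟨m, hm⟩ : ∃ m, m = ‖H zm‖ := ⟨_, rfl⟩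
  have hm0 : 0 < m := by
    rw [hm, norm_pos_iff]
    apply (hball zm (hssub hzm)).1
    intro h
    rw [Set.mem_singleton_iff] at h
    rw [h, mem_sphere, dist_self] at hzm
    exact hr0.ne hzm
  obtain ⟨C2, hC2⟩ := hcp.exists_bound_of_continuousOn (f := h2)
    (fun z hz => (c2 z (hssub hz)).continuousAt.continuousWithinAt)
  obtain ⟨C3, hC3⟩ := hcp.exists_bound_of_continuousOn (f := h3)
    (fun z hz => (c3 z (hssub hz)).continuousAt.continuousWithinAt)
  obtain ⟨K, hK⟩ : ∃ K : ℝ, K = |Real.log ‖z0‖| + |L2| + Real.pi + 1 := ⟨_, rfl⟩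
  obtain ⟨n, hn⟩ := exists_nat_gt (max ((C2 + C3 + 2 * K) / m) (max (1 / θ) 1))
  have hn1 : (C2 + C3 + 2 * K) / m < n := lt_of_le_of_lt (le_max_left _ _) hn
  have hn2 : 1 / θ < n := lt_of_le_of_lt ((le_max_left _ _).trans (le_max_right _ _)) hn
  have hn3 : (1 : ℝ) < n := lt_of_le_of_lt ((le_max_right _ _).trans (le_max_right _ _)) hn
  rw [div_lt_iff₀ hm0] at hn1
  rw [div_lt_iff₀ hθ0] at hn2
  obtain ⟨b, hb⟩ : ∃ b : ℕ, b = ⌊θ * n⌋₊ := ⟨_, rfl⟩
  have hb1 : (b : ℝ) ≤ θ * n := by rw [hb]; exact Nat.floor_le (by positivity)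
  have hb2 : θ * n < b + 1 := by rw [hb]; exact Nat.lt_floor_add_one _
  have hb3 : 1 ≤ b := by
    rw [hb, Nat.one_le_floor_iff]
    linarith
  -- the value at the centre
  obtain ⟨F0, hF0⟩ : ∃ F0, F0 = z0 * R1 z0 ^ n * R2 z0 ^ b := ⟨_, rfl⟩
  have hF0ne : F0 ≠ 0 := by
    rw [hF0]
    exact mul_ne_zero (mul_ne_zero hz (pow_ne_zero _ h10)) (pow_ne_zero _ h20)
  have hlogF : Real.log ‖F0‖ = Real.log ‖z0‖ + ((b : ℝ) - θ * n) * L2 := by
    rw [hF0, norm_mul, norm_mul, norm_pow, norm_pow,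
      Real.log_mul (mul_ne_zero (norm_ne_zero_iff.mpr hz)
        (pow_ne_zero _ (norm_ne_zero_iff.mpr h10))) (pow_ne_zero _ (norm_ne_zero_iff.mpr h20)),
      Real.log_mul (norm_ne_zero_iff.mpr hz) (pow_ne_zero _ (norm_ne_zero_iff.mpr h10)),
      Real.log_pow, Real.log_pow, ← hL1, ← hL2]
    have : (n : ℝ) * L1 = -(θ * L2) * n := by rw [hθL]; ring
    rw [this]
    ring
  obtain ⟨w, hw⟩ : ∃ w, w = Complex.log (-1 / F0) := ⟨_, rfl⟩
  have hwK : ‖w‖ < K := by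
    have h5 : ‖w‖ ≤ |w.re| + |w.im| := Complex.norm_le_abs_re_add_abs_im w
    have h6 : w.re = -Real.log ‖F0‖ := by
      rw [hw, Complex.log_re, norm_div, norm_neg, norm_one, one_div, Real.log_inv]
    have h7 : |w.im| ≤ Real.pi := by
      rw [hw, Complex.log_im]
      exact Complex.abs_arg_le_pi _
    have h8 : |w.re| ≤ |Real.log ‖z0‖| + |L2| := by
      rw [h6, abs_neg, hlogF]
      refine (abs_add_le _ _).trans ?_
      rw [abs_mul]
      have : |(b : ℝ) - θ * n| ≤ 1 := by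
        rw [abs_le]
        constructor <;> linarith
      have := mul_le_mul_of_nonneg_right this (abs_nonneg L2)
      linarith
    rw [hK]
    linarith
  obtain ⟨g, hg⟩ : ∃ g : ℂ → ℂ, g = fun z => n * h1 z + b * h2 z + h3 z := ⟨_, rfl⟩
  have xg : ∀ z, g z = n * h1 z + b * h2 z + h3 z := fun z => by rw [hg]
  have gz0 : g z0 = 0 := by rw [xg, a1, a2, a3]; simp
  have gan : AnalyticOnNhd ℂ g (ball z0 r1) := by
    intro z hz
    rw [hg]
    exact ((analyticAt_const.mul (c1 z hz)).add (analyticAt_const.mul (c2 z hz))).add (c3 z hz)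
  have gdiff : DiffContOnCl ℂ g (ball z0 r) := by
    apply DifferentiableOn.diffContOnCl
    rw [closure_ball z0 hr0.ne']
    exact (gan.mono hsub).differentiableOn
  have glow : ∀ z ∈ sphere z0 r, 2 * K ≤ ‖g z - g z0‖ := by
    intro z hzs
    rw [gz0, sub_zero]
    have h5 : g z = n * H z + (((b : ℝ) - θ * n : ℝ) : ℂ) * h2 z + h3 z := by
      rw [xg, xH]
      push_cast
      ring
    have h6 : m ≤ ‖H z‖ := by rw [hm]; exact hmin hzs
    have h7 := hC2 z hzs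
    have h8 := hC3 z hzs
    have h9 : ‖(((b : ℝ) - θ * n : ℝ) : ℂ) * h2 z‖ ≤ C2 := by
      rw [norm_mul, Complex.norm_real, Real.norm_eq_abs]
      have : |(b : ℝ) - θ * n| ≤ 1 := by
        rw [abs_le]
        constructor <;> linarith
      calc |(b : ℝ) - θ * n| * ‖h2 z‖ ≤ 1 * ‖h2 z‖ :=
            mul_le_mul_of_nonneg_right this (norm_nonneg _)
        _ ≤ C2 := by rw [one_mul]; exact h7
    have h10 : ‖(n : ℂ) * H z‖ = n * ‖H z‖ := by
      rw [norm_mul, Complex.norm_natCast]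
    have h11 : (n : ℝ) * m ≤ n * ‖H z‖ := mul_le_mul_of_nonneg_left h6 (by linarith)
    have h12 : ‖(n : ℂ) * H z‖ ≤ ‖g z‖ + ‖(((b : ℝ) - θ * n : ℝ) : ℂ) * h2 z‖ + ‖h3 z‖ := by
      have : (n : ℂ) * H z = g z - (((b : ℝ) - θ * n : ℝ) : ℂ) * h2 z - h3 z := by
        rw [h5]; ring
      rw [this]
      exact (norm_sub_le _ _).trans (add_le_add (norm_sub_le _ _) le_rfl)
    linarith
  have hK0 : 0 < K := lt_of_le_of_lt (norm_nonneg _) hwK
  have gfreq : ∃ᶠ z in 𝓝 z0, g z ≠ g z0 := by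
    intro hcon
    have h5 : ∀ᶠ z in 𝓝 z0, g z = 0 := by
      filter_upwards [hcon] with z hz
      push Not at hz
      rw [hz, gz0]
    have h6 := gan.eqOn_zero_of_preconnected_of_eventuallyEq_zero
      (convex_ball z0 r1).isPreconnected (mem_ball_self hr1) h5
    have h7 := glow zm hzm
    rw [gz0, sub_zero, h6 (hssub hzm)] at h7
    simp at h7
    linarith
  have himg := gdiff.ball_subset_image_closedBall hr0 glow gfreq
  have hwmem : w ∈ ball (g z0) (2 * K / 2) := by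
    rw [gz0, mem_ball_zero_iff]
    linarith
  obtain ⟨z, hzb, hgz⟩ := himg hwmem
  have hzb1 : z ∈ ball z0 r1 := hsub hzb
  obtain ⟨-, y1, y2, y3⟩ := hball z hzb1
  have E1 : Complex.exp (h1 z) = R1 z / R1 z0 := by rw [x1]; exact y1.2.1
  have E2 : Complex.exp (h2 z) = R2 z / R2 z0 := by rw [x2]; exact y2.2.1
  have E3 : Complex.exp (h3 z) = z / z0 := by rw [x3]; exact y3.2.1
  have hexp : Complex.exp (g z) = z * R1 z ^ n * R2 z ^ b / F0 := by
    rw [xg, Complex.exp_add, Complex.exp_add, Complex.exp_nat_mul, Complex.exp_nat_mul, E1, E2, E3,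
      hF0, div_pow, div_pow]
    field_simp
  rw [hgz, hw, Complex.exp_log (div_ne_zero (by norm_num) hF0ne)] at hexp
  have hfin : z * R1 z ^ n * R2 z ^ b = -1 := by
    field_simp at hexp
    exact hexp.symm
  refine ⟨z, ?_, ?_, n, b, ?_, hb3, hfin⟩
  · rw [← dist_eq_norm]
    exact lt_of_le_of_lt (mem_closedBall.mp hzb) hrε
  · intro h0
    rw [h0] at hfin
    simp at hfin
  · have : (1 : ℝ) ≤ n := hn3.le
    exact_mod_cast this

end Pool.Agent.Y281.CR
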