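import Pool.Agent.Y281.CR.Defs

set_option autoImplicit false

namespace Pool.Agent.Y281.CR

/-- connected in the complement of `s` -/
def Cn {V : Type} (G : SimpleGraph V) (s : Finset V) (u v : V) : Prop :=
  ∃ (hu : u ∉ s) (hv : v ∉ s), (G.induce {v | v ∉ s}).Reachable ⟨u, hu⟩ ⟨v, hv⟩

theorem Cn.refl {V : Type} {G : SimpleGraph V} {s : Finset V} {u : V} (hu : u ∉ s) :
    Cn G s u u := ⟨hu, hu, SimpleGraph.Reachable.refl _⟩

theorem Cn.symm {V : Type} {G : SimpleGraph V} {s : Finset V} {u v : V} (h : Cn G s u v) :
    Cn G s v u := by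
  obtain ⟨a, b, c⟩ := h
  exact ⟨b, a, c.symm⟩

theorem Cn.trans {V : Type} {G : SimpleGraph V} {s : Finset V} {u v w : V} (h : Cn G s u v)
    (h' : Cn G s v w) : Cn G s u w := by
  obtain ⟨a, b, c⟩ := h
  obtain ⟨a', b', c'⟩ := h'
  exact ⟨a, b', c.trans c'⟩

theorem Cn.adj {V : Type} {G : SimpleGraph V} {s : Finset V} {u v : V} (hu : u ∉ s) (hv : v ∉ s)
    (h : G.Adj u v) : Cn G s u v :=
  ⟨hu, hv, SimpleGraph.Adj.reachable (by simpa using h)⟩

variable {M : ℕ} {A : Bool → ℕ → Prop}

theorem walk {s : Finset (Bool ⊕ Fin (M + 1))} (i d : ℕ) (hid : i + d < M + 1)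
    (h : ∀ t : Fin (M + 1), i ≤ t → (t : ℕ) ≤ i + d → Sum.inr t ∉ s) :
    Cn (HG M A) s (Sum.inr ⟨i, by omega⟩) (Sum.inr ⟨i + d, hid⟩) := by
  induction d with
  | zero => exact Cn.refl (h ⟨i, by omega⟩ le_rfl (by simp))
  | succ d ih =>
    refine (ih (by omega) (fun t h1 h2 => h t h1 (by omega))).trans ?_
    refine Cn.adj (h ⟨i + d, by omega⟩ (by simp) (by simp))
      (h ⟨i + (d + 1), hid⟩ (by simp) (by simp)) ?_
    left
    simp only
    omega

theorem threeConnected (hM : 2 ≤ M) (hA : ∀ i, A true i ∨ A false i) (h0 : ∀ h, A h 0)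
    (h1 : ∀ h, A h 1) (hM' : ∀ h, A h M) : ThreeConnected (HG M A) := by
  classical
  refine ⟨by simp; omega, ?_⟩
  intro s hs
  rw [SimpleGraph.connected_iff_exists_forall_reachable]
  -- a base vertex to which everything is connected
  suffices h : ∃ b, ∀ v, v ∉ s → Cn (HG M A) s b v by
    obtain ⟨b, hb⟩ := h
    have hex : ∃ v, v ∉ s := by
      by_contra hcon
      push Not at hcon
      have : Fintype.card (Bool ⊕ Fin (M + 1)) ≤ s.card :=
        Finset.card_le_card (s := Finset.univ) (fun x _ => hcon x)
      simp at this
      omega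
    obtain ⟨v0, hv0⟩ := hex
    obtain ⟨hb0, -, -⟩ := hb v0 hv0
    refine ⟨⟨b, hb0⟩, ?_⟩
    rintro ⟨v, hv⟩
    obtain ⟨h1, h2, h3⟩ := hb v hv
    exact h3
  by_cases hub : ∀ h : Bool, Sum.inl h ∈ s
  · -- both hubs are removed
    have hsub : ({Sum.inl true, Sum.inl false} : Finset (Bool ⊕ Fin (M + 1))) = s := by
      apply Finset.eq_of_subset_of_card_le
      · intro x hx
        simp at hx
        rcases hx with rfl | rfl
        · exact hub true
        · exact hub false
      · simpa using hs
    have hp : ∀ t : Fin (M + 1), Sum.inr t ∉ s := by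
      intro t
      rw [← hsub]
      simp
    refine ⟨Sum.inr ⟨0, by omega⟩, ?_⟩
    rintro (h | ⟨j, hj⟩) hv
    · exact absurd (hub h) hv
    · have := walk (A := A) (s := s) 0 j (by omega) (fun t _ _ => hp t)
      simpa using this
  · push Not at hub
    obtain ⟨h, hh⟩ := hub
    -- every remaining path vertex is connected to `h` or the other hub is present
    by_cases hub2 : Sum.inl (!h) ∈ s
    · -- exactly one hub removed, at most one path vertex
      have hone : ∀ i j : Fin (M + 1), Sum.inr i ∈ s → Sum.inr j ∈ s → i = j := by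
        intro i j hi hj
        by_contra hij
        have hsub : ({Sum.inl (!h), Sum.inr i, Sum.inr j} : Finset (Bool ⊕ Fin (M + 1))) ⊆ s := by
          intro x hx
          simp at hx
          rcases hx with rfl | rfl | rfl
          · exact hub2
          · exact hi
          · exact hj
        have hcard := Finset.card_le_card hsub
        rw [Finset.card_insert_of_notMem (by simp), Finset.card_insert_of_notMem (by simpa using hij),
          Finset.card_singleton] at hcard
        omega
      refine ⟨Sum.inl h, ?_⟩
      rintro (h' | j) hv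
      · rcases Bool.eq_or_eq_not h' h with e | e
        · subst e
          exact Cn.refl hh
        · subst e
          exact absurd hub2 hv
      · by_cases hl : ∀ t : Fin (M + 1), (t : ℕ) ≤ j → Sum.inr t ∉ s
        · have hw := walk (A := A) (s := s) 0 j (by omega) (fun t _ ht => hl t (by omega))
          have h2 : Cn (HG M A) s (Sum.inl h) (Sum.inr ⟨0, by omega⟩) :=
            Cn.adj hh (hl ⟨0, by omega⟩ (by simp)) (h0 h)
          have h3 := h2.trans hw
          simpa using h3
        · push Not at hl
          obtain ⟨t, ht, hts⟩ := hl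
          have htj : (t : ℕ) ≠ j := by
            intro e
            have : t = j := Fin.ext e
            subst this
            exact hv hts
          have hr : ∀ t' : Fin (M + 1), (j : ℕ) ≤ t' → Sum.inr t' ∉ s := by
            intro t' ht' hmem
            have := hone t t' hts hmem
            subst this
            omega
          have hw := walk (A := A) (s := s) j (M - j) (by omega) (fun t' ht' _ => hr t' ht')
          have h2 : Cn (HG M A) s (Sum.inl h) (Sum.inr ⟨j + (M - j), by omega⟩) := by
            refine Cn.adj hh (hr _ (by simp)) ?_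
            change A h (j + (M - j))
            have : (j : ℕ) + (M - j) = M := by omega
            rw [this]
            exact hM' h
          have h3 := h2.trans hw.symm
          simpa using h3
    · -- both hubs are present
      have hboth : ∀ h' : Bool, Sum.inl h' ∉ s := by
        intro h'
        rcases Bool.eq_or_eq_not h' h with e | e
        · subst e; exact hh
        · subst e; exact hub2
      have hk : ∃ k : Fin (M + 1), Sum.inr k ∉ s ∧ ∀ h', A h' k := by
        by_contra hcon
        push Not at hcon
        have m0 : Sum.inr (⟨0, by omega⟩ : Fin (M + 1)) ∈ s := by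
          by_contra hc
          obtain ⟨h', hh'⟩ := hcon _ hc
          exact hh' (h0 h')
        have m1 : Sum.inr (⟨1, by omega⟩ : Fin (M + 1)) ∈ s := by
          by_contra hc
          obtain ⟨h', hh'⟩ := hcon _ hc
          exact hh' (h1 h')
        have m2 : Sum.inr (⟨M, by omega⟩ : Fin (M + 1)) ∈ s := by
          by_contra hc
          obtain ⟨h', hh'⟩ := hcon _ hc
          exact hh' (hM' h')
        have hsub : ({Sum.inr ⟨0, by omega⟩, Sum.inr ⟨1, by omega⟩, Sum.inr ⟨M, by omega⟩} :
            Finset (Bool ⊕ Fin (M + 1))) ⊆ s := by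
          intro x hx
          simp only [Finset.mem_insert, Finset.mem_singleton] at hx
          rcases hx with rfl | rfl | rfl
          · exact m0
          · exact m1
          · exact m2
        have hcard := Finset.card_le_card hsub
        rw [Finset.card_insert_of_notMem (by simp; omega),
          Finset.card_insert_of_notMem (by simp; omega), Finset.card_singleton] at hcard
        omega
      obtain ⟨k, hks, hk⟩ := hk
      have hcon : ∀ h' : Bool, Cn (HG M A) s (Sum.inr k) (Sum.inl h') := fun h' =>
        Cn.adj hks (hboth h') (hk h')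
      refine ⟨Sum.inr k, ?_⟩
      rintro (h' | j) hv
      · exact hcon h'
      · rcases hA j with hj | hj
        · exact (hcon true).trans (Cn.adj (hboth true) hv hj)
        · exact (hcon false).trans (Cn.adj (hboth false) hv hj)

end Pool.Agent.Y281.CR
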