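import Pool.Agent.Y281.CR.Defs

set_option autoImplicit false

namespace Pool.Agent.Y281.CR
open Classical

/-- conditions for the path part of a colouring -/
def okp {n : ℕ} (M : ℕ) (A : Bool → ℕ → Prop) (c : Bool → Fin n) (g : Fin (M + 1) → Fin n) :
    Prop := (∀ i : Fin (M + 1), ∀ h, A h i → g i ≠ c h) ∧ ∀ i : Fin M, g i.castSucc ≠ g i.succ

/-- colourings of the graph -/
def colEquiv (n M : ℕ) (A : Bool → ℕ → Prop) : (HG M A).Coloring (Fin n) ≃
    Σ c : Bool → Fin n, {g : Fin (M + 1) → Fin n // okp M A c g} where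
  toFun C := ⟨fun h => C (Sum.inl h), ⟨fun i => C (Sum.inr i), by
    constructor
    · intro i h hA
      exact C.valid (v := Sum.inr i) (w := Sum.inl h) hA
    · intro i
      refine C.valid (v := Sum.inr i.castSucc) (w := Sum.inr i.succ) ?_
      left
      simp⟩⟩
  invFun x := SimpleGraph.Coloring.mk (Sum.elim x.1 x.2.1) (by
    obtain ⟨c, g, hg⟩ := x
    rintro (h | i) (h' | j) hadj
    · exact hadj.elim
    · exact (hg.1 j h hadj).symm
    · exact hg.1 i h' hadj
    · rcases hadj with hadj | hadj
      · have hi : (i : ℕ) < M := by omega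
        have e1 : i = (⟨i, hi⟩ : Fin M).castSucc := Fin.ext rfl
        have e2 : j = (⟨i, hi⟩ : Fin M).succ := Fin.ext (by simp; omega)
        have := hg.2 ⟨i, hi⟩
        rw [← e1, ← e2] at this
        exact this
      · have hi : (j : ℕ) < M := by omega
        have e1 : j = (⟨j, hi⟩ : Fin M).castSucc := Fin.ext rfl
        have e2 : i = (⟨j, hi⟩ : Fin M).succ := Fin.ext (by simp; omega)
        have := hg.2 ⟨j, hi⟩
        rw [← e1, ← e2] at this
        exact this.symm)
  left_inv C := by
    ext v
    rcases v with h | i <;> rfl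
  right_inv x := by
    obtain ⟨c, g, hg⟩ := x
    rfl

/-- the indicator of an allowed colour -/
noncomputable def ok {n : ℕ} (A : Bool → ℕ → Prop) (c : Bool → Fin n) (i : ℕ) (x : Fin n) : ℂ :=
  if ∀ h, A h i → x ≠ c h then 1 else 0

/-- the indicator of a good path colouring -/
noncomputable def wt {n : ℕ} (M : ℕ) (A : Bool → ℕ → Prop) (c : Bool → Fin n)
    (g : Fin (M + 1) → Fin n) : ℂ :=
  (∏ i : Fin (M + 1), ok A c i (g i)) * ∏ i : Fin M, (if g i.castSucc = g i.succ then 0 else 1)

theorem wt_eq {n : ℕ} (M : ℕ) (A : Bool → ℕ → Prop) (c : Bool → Fin n)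
    (g : Fin (M + 1) → Fin n) : wt M A c g = if okp M A c g then 1 else 0 := by
  unfold wt okp
  split_ifs with h
  · rw [Finset.prod_eq_one, Finset.prod_eq_one, one_mul]
    · intro i _
      rw [if_neg (h.2 i)]
    · intro i _
      unfold ok
      rw [if_pos (h.1 i)]
  · rw [not_and_or] at h
    rcases h with h | h
    · push Not at h
      obtain ⟨i, b, h1, h2⟩ := h
      rw [Finset.prod_eq_zero (Finset.mem_univ i), zero_mul]
      unfold ok
      rw [if_neg]
      push Not
      exact ⟨b, h1, h2⟩
    · push Not at h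
      obtain ⟨i, h1⟩ := h
      have h3 : ∏ i : Fin M, (if g i.castSucc = g i.succ then (0 : ℂ) else 1) = 0 :=
        Finset.prod_eq_zero (Finset.mem_univ i) (if_pos h1)
      rw [h3, mul_zero]

noncomputable def tot {n : ℕ} (M : ℕ) (A : Bool → ℕ → Prop) (c : Bool → Fin n) : ℂ :=
  ∑ g : Fin (M + 1) → Fin n, wt M A c g

noncomputable def W {n : ℕ} (M : ℕ) (A : Bool → ℕ → Prop) (c : Bool → Fin n) (x : Fin n) : ℂ :=
  ∑ g : Fin (M + 1) → Fin n, if g (Fin.last M) = x then wt M A c g else 0

theorem tot_eq_sum {n : ℕ} (M : ℕ) (A : Bool → ℕ → Prop) (c : Bool → Fin n) :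
    tot M A c = ∑ x, W M A c x := by
  unfold tot W
  rw [Finset.sum_comm]
  refine Finset.sum_congr rfl fun g _ => ?_
  simp

theorem W_zero {n : ℕ} (A : Bool → ℕ → Prop) (c : Bool → Fin n) (x : Fin n) :
    W 0 A c x = ok A c 0 x := by
  unfold W wt
  rw [Finset.sum_eq_single (fun _ => x)]
  · simp
  · intro g _ hg
    rw [if_neg]
    intro h
    apply hg
    ext i
    have : i = Fin.last 0 := by
      apply Fin.ext
      have := i.2
      simp only [Fin.val_last]
      omega
    rw [this, h]
  · intro h
    exact absurd (Finset.mem_univ _) h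

theorem W_succ {n : ℕ} (M : ℕ) (A : Bool → ℕ → Prop) (c : Bool → Fin n) (x : Fin n) :
    W (M + 1) A c x = ok A c (M + 1) x * (tot M A c - W M A c x) := by
  have h1 : W (M + 1) A c x = ∑ y : Fin n, ∑ g : Fin (M + 1) → Fin n,
      if y = x then wt M A c g * ok A c (M + 1) y * (if g (Fin.last M) = y then 0 else 1)
      else 0 := by
    unfold W
    rw [← (Fin.snocEquiv (fun _ : Fin (M + 2) => Fin n)).sum_comp, Fintype.sum_prod_type]
    refine Finset.sum_congr rfl fun y _ => Finset.sum_congr rfl fun g _ => ?_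
    have e1 : (Fin.snocEquiv (fun _ : Fin (M + 2) => Fin n)) (y, g) = Fin.snoc g y := rfl
    rw [e1, Fin.snoc_last]
    by_cases hy : y = x
    · rw [if_pos hy, if_pos hy]
      unfold wt
      have p1 : ∏ i : Fin (M + 2), ok A c i ((Fin.snoc g y : Fin (M + 2) → Fin n) i) =
          (∏ i : Fin (M + 1), ok A c i (g i)) * ok A c (M + 1) y := by
        rw [Fin.prod_univ_castSucc]
        simp only [Fin.snoc_castSucc, Fin.snoc_last, Fin.val_castSucc, Fin.val_last]
      have p2 : ∏ i : Fin (M + 1), (if (Fin.snoc g y : Fin (M + 2) → Fin n) i.castSucc =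
          (Fin.snoc g y : Fin (M + 2) → Fin n) i.succ then (0 : ℂ) else 1) =
          (∏ i : Fin M, if g i.castSucc = g i.succ then (0 : ℂ) else 1) *
            (if g (Fin.last M) = y then 0 else 1) := by
        rw [Fin.prod_univ_castSucc]
        simp only [Fin.snoc_castSucc, Fin.succ_castSucc, Fin.succ_last, Fin.snoc_last]
      rw [p1, p2]
      ring
    · rw [if_neg hy, if_neg hy]
  rw [h1, Finset.sum_eq_single x]
  · unfold tot W
    rw [← Finset.sum_sub_distrib, Finset.mul_sum]
    refine Finset.sum_congr rfl fun g _ => ?_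
    rw [if_pos rfl]
    split_ifs <;> ring
  · intro y _ hy
    apply Finset.sum_eq_zero
    intro g _
    rw [if_neg hy]
  · intro h
    exact absurd (Finset.mem_univ _) h

/-- the transfer recursion -/
noncomputable def GE {R : Type} [CommRing R] (A : Bool → ℕ → Prop) (z : R) : ℕ → R × R
  | 0 => (1, 0)
  | i + 1 => ((z - 1) * (GE A z i).1 + (GE A z i).2,
      if ∀ h, A h (i + 1) then 0 else z * (GE A z i).1 + (GE A z i).2)

theorem sum_two {n : ℕ} {a b : Fin n} (hab : a ≠ b) (f : Fin n → ℂ) (G : ℂ)
    (hf : ∀ x, x ≠ a → x ≠ b → f x = G) : ∑ x, f x = ((n : ℂ) - 2) * G + (f a + f b) := by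
  have h1 : ∑ x, f x = ∑ x, (G + ((if x = a then f a - G else 0) + (if x = b then f b - G else 0))) := by
    refine Finset.sum_congr rfl fun x _ => ?_
    by_cases ha : x = a
    · subst ha
      rw [if_pos rfl, if_neg hab]
      ring
    · by_cases hb : x = b
      · subst hb
        rw [if_neg ha, if_pos rfl]
        ring
      · rw [if_neg ha, if_neg hb, hf x ha hb]
        ring
  rw [h1, Finset.sum_add_distrib, Finset.sum_add_distrib]
  simp
  ring

variable {A : Bool → ℕ → Prop}

theorem W_diff {n : ℕ} (hA : ∀ i, A true i ∨ A false i) (hA2 : ∀ h i, A h i ∨ A h (i + 1))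
    (h0 : ∀ h, A h 0) {c : Bool → Fin n} (hc : c true ≠ c false) (M : ℕ) :
    (∀ x, (∀ h, x ≠ c h) → W M A c x = (GE A ((n : ℂ) - 2) M).1) ∧
    (∀ h, W M A c (c h) = if A h M then 0 else (GE A ((n : ℂ) - 2) M).2) ∧
    ((∀ h, A h M) → (GE A ((n : ℂ) - 2) M).2 = 0) := by
  have hcn : ∀ h h' : Bool, h ≠ h' → c h ≠ c h' := by
    intro h h' hh
    cases h <;> cases h' <;> simp_all [eq_comm]
  have hoth : ∀ h i, ¬ A h i → A (!h) i := by
    intro h i hn
    rcases hA i with h1 | h1 <;> cases h <;> simp_all
  induction M with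
  | zero =>
    refine ⟨?_, ?_, ?_⟩
    · intro x hx
      rw [W_zero]
      unfold ok GE
      rw [if_pos (fun h _ => hx h)]
    · intro h
      rw [W_zero, if_pos (h0 h)]
      unfold ok
      rw [if_neg]
      push Not
      exact ⟨h, h0 h, rfl⟩
    · intro _
      rfl
  | succ M ih =>
    obtain ⟨i1, i2, i3⟩ := ih
    have htot : tot M A c = ((n : ℂ) - 2) * (GE A ((n : ℂ) - 2) M).1 +
        (GE A ((n : ℂ) - 2) M).2 := by
      rw [tot_eq_sum, sum_two hc (W M A c) _ (fun x ha hb => i1 x (by
        intro h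
        cases h
        · exact hb
        · exact ha)), i2, i2]
      by_cases ha : A true M
      · by_cases hb : A false M
        · rw [if_pos ha, if_pos hb, i3 (by intro h; cases h <;> assumption)]
          ring
        · rw [if_pos ha, if_neg hb]
          ring
      · have hb : A false M := by simpa using hoth true M ha
        rw [if_neg ha, if_pos hb]
        ring
    refine ⟨?_, ?_, ?_⟩
    · intro x hx
      rw [W_succ, htot, i1 x hx]
      unfold ok
      rw [if_pos (fun h _ => hx h)]
      simp only [GE]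
      ring
    · intro h
      rw [W_succ, htot, i2]
      by_cases ha : A h (M + 1)
      · rw [if_pos ha]
        unfold ok
        rw [if_neg, zero_mul]
        push Not
        exact ⟨h, ha, rfl⟩
      · have hm : A h M := (hA2 h M).resolve_right ha
        rw [if_neg ha, if_pos hm]
        unfold ok
        rw [if_pos]
        · simp only [GE]
          rw [if_neg (fun hh => ha (hh h))]
          ring
        · intro h' hh' he
          by_cases hne : h = h'
          · subst hne
            exact ha hh'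
          · exact hcn h h' hne he
    · intro hh
      simp only [GE]
      rw [if_pos hh]

theorem W_same {n : ℕ} (hA : ∀ i, A true i ∨ A false i) {c : Bool → Fin n}
    (hc : c true = c false) (M : ℕ) (x : Fin n) :
    W M A c x = if x = c true then 0 else ((n : ℂ) - 2) ^ M := by
  have hok : ∀ i x, ok A c i x = if x = c true then 0 else 1 := by
    intro i x
    unfold ok
    by_cases hx : x = c true
    · rw [if_pos hx, if_neg]
      push Not
      rcases hA i with h | h
      · exact ⟨true, h, hx⟩
      · exact ⟨false, h, hx.trans hc⟩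
    · rw [if_neg hx, if_pos]
      intro h _
      cases h
      · rw [← hc]; exact hx
      · exact hx
  induction M generalizing x with
  | zero => rw [W_zero, hok]; simp
  | succ M ih =>
    have htot : tot M A c = ((n : ℂ) - 1) * ((n : ℂ) - 2) ^ M := by
      rw [tot_eq_sum]
      have : ∀ x, W M A c x = ((n : ℂ) - 2) ^ M - if x = c true then ((n : ℂ) - 2) ^ M else 0 := by
        intro x
        rw [ih x]
        split_ifs <;> ring
      rw [Finset.sum_congr rfl fun x _ => this x, Finset.sum_sub_distrib]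
      simp
      ring
    rw [W_succ, hok, htot, ih x]
    split_ifs
    · ring
    · ring

theorem tot_same {n : ℕ} (hA : ∀ i, A true i ∨ A false i) {c : Bool → Fin n}
    (hc : c true = c false) (M : ℕ) : tot M A c = ((n : ℂ) - 1) * ((n : ℂ) - 2) ^ M := by
  rw [tot_eq_sum]
  have : ∀ x, W M A c x = ((n : ℂ) - 2) ^ M - if x = c true then ((n : ℂ) - 2) ^ M else 0 := by
    intro x
    rw [W_same hA hc M x]
    split_ifs <;> ring
  rw [Finset.sum_congr rfl fun x _ => this x, Finset.sum_sub_distrib]
  simp
  ring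

theorem tot_diff {n : ℕ} (hA : ∀ i, A true i ∨ A false i) (hA2 : ∀ h i, A h i ∨ A h (i + 1))
    (h0 : ∀ h, A h 0) {c : Bool → Fin n} (hc : c true ≠ c false) (M : ℕ) (hM : ∀ h, A h M) :
    tot M A c = ((n : ℂ) - 2) * (GE A ((n : ℂ) - 2) M).1 := by
  obtain ⟨i1, i2, i3⟩ := W_diff hA hA2 h0 hc M
  rw [tot_eq_sum, sum_two hc (W M A c) _ (fun x ha hb => i1 x (by
        intro h
        cases h
        · exact hb
        · exact ha)), i2, i2, if_pos (hM _), if_pos (hM _)]
  ring

theorem card_col (n M : ℕ) (A : Bool → ℕ → Prop) :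
    (Nat.card ((HG M A).Coloring (Fin n)) : ℂ) = ∑ c : Bool → Fin n, tot M A c := by
  rw [Nat.card_congr (colEquiv n M A), Nat.card_sigma]
  push_cast
  refine Finset.sum_congr rfl fun c _ => ?_
  unfold tot
  rw [Finset.sum_congr rfl fun g _ => wt_eq M A c g, Finset.sum_boole, Nat.card_eq_fintype_card,
    Fintype.card_subtype]

/-- the number of colourings -/
theorem count {n M : ℕ} (hA : ∀ i, A true i ∨ A false i) (hA2 : ∀ h i, A h i ∨ A h (i + 1))
    (h0 : ∀ h, A h 0) (hM : ∀ h, A h M) :
    (Nat.card ((HG M A).Coloring (Fin n)) : ℂ) = (n : ℂ) * ((n : ℂ) - 1) *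
      (((n : ℂ) - 2) * (GE A ((n : ℂ) - 2) M).1 + ((n : ℂ) - 2) ^ M) := by
  rw [card_col]
  have h1 : ∀ c : Bool → Fin n, tot M A c = if c true = c false then
      ((n : ℂ) - 1) * ((n : ℂ) - 2) ^ M else ((n : ℂ) - 2) * (GE A ((n : ℂ) - 2) M).1 := by
    intro c
    split_ifs with h
    · exact tot_same hA h M
    · exact tot_diff hA hA2 h0 h M hM
  rw [Finset.sum_congr rfl fun c _ => h1 c]
  have h2 : ∀ a b : ℂ, ∑ c : Bool → Fin n, (if c true = c false then a else b) =
      n * a + (n * (n - 1)) * b := by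
    intro a b
    rw [← (Equiv.boolArrowEquivProd (Fin n)).symm.sum_comp, Fintype.sum_prod_type]
    have h3 : ∀ x : Fin n, ∑ y : Fin n, (if ((Equiv.boolArrowEquivProd (Fin n)).symm (x, y)) true =
        ((Equiv.boolArrowEquivProd (Fin n)).symm (x, y)) false then a else b) =
        a + ((n : ℂ) - 1) * b := by
      intro x
      have h4 : ∀ y : Fin n, (if ((Equiv.boolArrowEquivProd (Fin n)).symm (x, y)) true =
        ((Equiv.boolArrowEquivProd (Fin n)).symm (x, y)) false then a else b) =
          b + if y = x then a - b else 0 := by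
        intro y
        have e1 : ((Equiv.boolArrowEquivProd (Fin n)).symm (x, y)) true = y := rfl
        have e2 : ((Equiv.boolArrowEquivProd (Fin n)).symm (x, y)) false = x := rfl
        rw [e1, e2]
        split_ifs <;> ring
      rw [Finset.sum_congr rfl fun y _ => h4 y, Finset.sum_add_distrib]
      simp
      ring
    rw [Finset.sum_congr rfl fun x _ => h3 x]
    simp
    ring
  rw [h2]
  ring

end Pool.Agent.Y281.CR
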