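import Pool.Agent.Y281.CR.Three

set_option autoImplicit false

namespace Pool.Agent.Y281.CR
open Classical

/-- conditions for the path part of a colouring -/
def okp3 {n : ℕ} (M : ℕ) (A : Option Bool → ℕ → Prop) (c : Option Bool → Fin n)
    (g : Fin (M + 1) → Fin n) : Prop :=
  (∀ i : Fin (M + 1), ∀ h, A h i → g i ≠ c h) ∧ ∀ i : Fin M, g i.castSucc ≠ g i.succ

/-- colourings of the graph -/
def colEquiv3 (n M : ℕ) (A : Option Bool → ℕ → Prop) : (TG M A).Coloring (Fin n) ≃
    Σ c : Option Bool → Fin n, {g : Fin (M + 1) → Fin n // c none ≠ c (some true) ∧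
      okp3 M A c g} where
  toFun C := ⟨fun h => C (Sum.inl h), ⟨fun i => C (Sum.inr i), by
    refine ⟨C.valid (v := Sum.inl none) (w := Sum.inl (some true)) trivial, ?_, ?_⟩
    · intro i h hA
      exact C.valid (v := Sum.inr i) (w := Sum.inl h) hA
    · intro i
      refine C.valid (v := Sum.inr i.castSucc) (w := Sum.inr i.succ) ?_
      left
      simp⟩⟩
  invFun x := SimpleGraph.Coloring.mk (Sum.elim x.1 x.2.1) (by
    obtain ⟨c, g, hc, hg⟩ := x
    rintro (h | i) (h' | j) hadj
    · rcases h with _ | _ | _ <;> rcases h' with _ | _ | _ <;>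
        first
          | exact hadj.elim
          | exact hc
          | exact hc.symm
    · exact (hg.1 j h hadj).symm
    · exact hg.1 i h' hadj
    · rcases hadj with hadj | hadj
      · have hi : (i : ℕ) < M := by omega
        have e1 : i = (⟨i, hi⟩ : Fin M).castSucc := Fin.ext rfl
        have e2 : j = (⟨i, hi⟩ : Fin M).succ := Fin.ext (by simp; omega)
        have := hg.2 ⟨i, hi⟩
        rw [← e1, ← e2] at this
        exact this
      · have hi : (j : ℕ) < M := by omega
        have e1 : j = (⟨j, hi⟩ : Fin M).castSucc := Fin.ext rfl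
        have e2 : i = (⟨j, hi⟩ : Fin M).succ := Fin.ext (by simp; omega)
        have := hg.2 ⟨j, hi⟩
        rw [← e1, ← e2] at this
        exact this.symm)
  left_inv C := by
    ext v
    rcases v with h | i <;> rfl
  right_inv x := by
    obtain ⟨c, g, hg⟩ := x
    rfl

/-- the indicator of an allowed colour -/
noncomputable def ok3 {n : ℕ} (A : Option Bool → ℕ → Prop) (c : Option Bool → Fin n) (i : ℕ)
    (x : Fin n) : ℂ := if ∀ h, A h i → x ≠ c h then 1 else 0

noncomputable def wt3 {n : ℕ} (M : ℕ) (A : Option Bool → ℕ → Prop) (c : Option Bool → Fin n)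
    (g : Fin (M + 1) → Fin n) : ℂ :=
  (∏ i : Fin (M + 1), ok3 A c i (g i)) * ∏ i : Fin M, (if g i.castSucc = g i.succ then 0 else 1)

theorem wt3_eq {n : ℕ} (M : ℕ) (A : Option Bool → ℕ → Prop) (c : Option Bool → Fin n)
    (g : Fin (M + 1) → Fin n) : wt3 M A c g = if okp3 M A c g then 1 else 0 := by
  unfold wt3 okp3
  split_ifs with h
  · rw [Finset.prod_eq_one, Finset.prod_eq_one, one_mul]
    · intro i _
      rw [if_neg (h.2 i)]
    · intro i _
      unfold ok3
      rw [if_pos (h.1 i)]
  · rw [not_and_or] at h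
    rcases h with h | h
    · push Not at h
      obtain ⟨i, b, h1, h2⟩ := h
      rw [Finset.prod_eq_zero (Finset.mem_univ i), zero_mul]
      unfold ok3
      rw [if_neg]
      push Not
      exact ⟨b, h1, h2⟩
    · push Not at h
      obtain ⟨i, h1⟩ := h
      have h3 : ∏ i : Fin M, (if g i.castSucc = g i.succ then (0 : ℂ) else 1) = 0 :=
        Finset.prod_eq_zero (Finset.mem_univ i) (if_pos h1)
      rw [h3, mul_zero]

noncomputable def tot3 {n : ℕ} (M : ℕ) (A : Option Bool → ℕ → Prop) (c : Option Bool → Fin n) : ℂ :=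
  ∑ g : Fin (M + 1) → Fin n, wt3 M A c g

noncomputable def W3 {n : ℕ} (M : ℕ) (A : Option Bool → ℕ → Prop) (c : Option Bool → Fin n)
    (x : Fin n) : ℂ :=
  ∑ g : Fin (M + 1) → Fin n, if g (Fin.last M) = x then wt3 M A c g else 0

theorem tot3_eq_sum {n : ℕ} (M : ℕ) (A : Option Bool → ℕ → Prop) (c : Option Bool → Fin n) :
    tot3 M A c = ∑ x, W3 M A c x := by
  unfold tot3 W3
  rw [Finset.sum_comm]
  refine Finset.sum_congr rfl fun g _ => ?_
  simp

theorem W3_zero {n : ℕ} (A : Option Bool → ℕ → Prop) (c : Option Bool → Fin n) (x : Fin n) :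
    W3 0 A c x = ok3 A c 0 x := by
  unfold W3 wt3
  rw [Finset.sum_eq_single (fun _ => x)]
  · simp
  · intro g _ hg
    rw [if_neg]
    intro h
    apply hg
    ext i
    have : i = Fin.last 0 := by
      apply Fin.ext
      have := i.2
      simp only [Fin.val_last]
      omega
    rw [this, h]
  · intro h
    exact absurd (Finset.mem_univ _) h

theorem W3_succ {n : ℕ} (M : ℕ) (A : Option Bool → ℕ → Prop) (c : Option Bool → Fin n)
    (x : Fin n) : W3 (M + 1) A c x = ok3 A c (M + 1) x * (∑ y, W3 M A c y - W3 M A c x) := by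
  rw [← tot3_eq_sum]
  have h1 : W3 (M + 1) A c x = ∑ y : Fin n, ∑ g : Fin (M + 1) → Fin n,
      if y = x then wt3 M A c g * ok3 A c (M + 1) y * (if g (Fin.last M) = y then 0 else 1)
      else 0 := by
    unfold W3
    rw [← (Fin.snocEquiv (fun _ : Fin (M + 2) => Fin n)).sum_comp, Fintype.sum_prod_type]
    refine Finset.sum_congr rfl fun y _ => Finset.sum_congr rfl fun g _ => ?_
    have e1 : (Fin.snocEquiv (fun _ : Fin (M + 2) => Fin n)) (y, g) = Fin.snoc g y := rfl
    rw [e1, Fin.snoc_last]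
    by_cases hy : y = x
    · rw [if_pos hy, if_pos hy]
      unfold wt3
      have p1 : ∏ i : Fin (M + 2), ok3 A c i ((Fin.snoc g y : Fin (M + 2) → Fin n) i) =
          (∏ i : Fin (M + 1), ok3 A c i (g i)) * ok3 A c (M + 1) y := by
        rw [Fin.prod_univ_castSucc]
        simp only [Fin.snoc_castSucc, Fin.snoc_last, Fin.val_castSucc, Fin.val_last]
      have p2 : ∏ i : Fin (M + 1), (if (Fin.snoc g y : Fin (M + 2) → Fin n) i.castSucc =
          (Fin.snoc g y : Fin (M + 2) → Fin n) i.succ then (0 : ℂ) else 1) =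
          (∏ i : Fin M, if g i.castSucc = g i.succ then (0 : ℂ) else 1) *
            (if g (Fin.last M) = y then 0 else 1) := by
        rw [Fin.prod_univ_castSucc]
        simp only [Fin.snoc_castSucc, Fin.succ_castSucc, Fin.succ_last, Fin.snoc_last]
      rw [p1, p2]
      ring
    · rw [if_neg hy, if_neg hy]
  rw [h1, Finset.sum_eq_single x]
  · unfold tot3 W3
    rw [← Finset.sum_sub_distrib, Finset.mul_sum]
    refine Finset.sum_congr rfl fun g _ => ?_
    rw [if_pos rfl]
    split_ifs <;> ring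
  · intro y _ hy
    apply Finset.sum_eq_zero
    intro g _
    rw [if_neg hy]
  · intro h
    exact absurd (Finset.mem_univ _) h

theorem card_col3 (n M : ℕ) (A : Option Bool → ℕ → Prop) :
    (Nat.card ((TG M A).Coloring (Fin n)) : ℂ) =
      ∑ c : Option Bool → Fin n, if c none = c (some true) then 0 else tot3 M A c := by
  rw [Nat.card_congr (colEquiv3 n M A), Nat.card_sigma]
  push_cast
  refine Finset.sum_congr rfl fun c _ => ?_
  split_ifs with h
  · have : IsEmpty {g : Fin (M + 1) → Fin n // c none ≠ c (some true) ∧ okp3 M A c g} :=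
      ⟨fun g => g.2.1 h⟩
    simp
  · unfold tot3
    rw [Finset.sum_congr rfl fun g _ => wt3_eq M A c g, Finset.sum_boole, Nat.card_eq_fintype_card,
      Fintype.card_subtype]
    congr 2
    ext g
    simp [h]

/-- closed form of a sequence with the transfer recursion, different colours -/
theorem U_diff {n : ℕ} {B : Bool → ℕ → Prop} (hB : ∀ i, B true i ∨ B false i)
    (hB2 : ∀ h i, B h i ∨ B h (i + 1)) (h0 : ∀ h, B h 0) {c : Bool → Fin n}
    (hc : c true ≠ c false) {K : ℂ} {U : ℕ → Fin n → ℂ}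
    (hU0 : ∀ x, U 0 x = if ∀ h, x ≠ c h then K else 0)
    (hUs : ∀ i x, U (i + 1) x = (if ∀ h, B h (i + 1) → x ≠ c h then 1 else 0) *
      (∑ y, U i y - U i x)) (i : ℕ) :
    (∀ x, (∀ h, x ≠ c h) → U i x = K * (GE B ((n : ℂ) - 2) i).1) ∧
    (∀ h, U i (c h) = if B h i then 0 else K * (GE B ((n : ℂ) - 2) i).2) ∧
    ((∀ h, B h i) → (GE B ((n : ℂ) - 2) i).2 = 0) ∧
    ∑ y, U i y = ((n : ℂ) - 2) * (K * (GE B ((n : ℂ) - 2) i).1) + K * (GE B ((n : ℂ) - 2) i).2 := by
  have hcn : ∀ h h' : Bool, h ≠ h' → c h ≠ c h' := by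
    intro h h' hh
    cases h <;> cases h' <;> simp_all [eq_comm]
  have hoth : ∀ h i, ¬ B h i → B (!h) i := by
    intro h i hn
    rcases hB i with h1 | h1 <;> cases h <;> simp_all
  have htot : ∀ i, (∀ x, (∀ h, x ≠ c h) → U i x = K * (GE B ((n : ℂ) - 2) i).1) →
      (∀ h, U i (c h) = if B h i then 0 else K * (GE B ((n : ℂ) - 2) i).2) →
      ((∀ h, B h i) → (GE B ((n : ℂ) - 2) i).2 = 0) →
      ∑ y, U i y = ((n : ℂ) - 2) * (K * (GE B ((n : ℂ) - 2) i).1) +
        K * (GE B ((n : ℂ) - 2) i).2 := by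
    intro i i1 i2 i3
    rw [sum_two hc (U i) _ (fun x ha hb => i1 x (by
        intro h
        cases h
        · exact hb
        · exact ha)), i2, i2]
    by_cases ha : B true i
    · by_cases hb : B false i
      · rw [if_pos ha, if_pos hb, i3 (by intro h; cases h <;> assumption)]
        ring
      · rw [if_pos ha, if_neg hb]
        ring
    · have hb : B false i := by simpa using hoth true i ha
      rw [if_neg ha, if_pos hb]
      ring
  induction i with
  | zero =>
    have i1 : ∀ x, (∀ h, x ≠ c h) → U 0 x = K * (GE B ((n : ℂ) - 2) 0).1 := by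
      intro x hx
      rw [hU0, if_pos hx]
      simp [GE]
    have i2 : ∀ h, U 0 (c h) = if B h 0 then 0 else K * (GE B ((n : ℂ) - 2) 0).2 := by
      intro h
      rw [hU0, if_pos (h0 h), if_neg]
      push Not
      exact ⟨h, rfl⟩
    exact ⟨i1, i2, fun _ => rfl, htot 0 i1 i2 (fun _ => rfl)⟩
  | succ i ih =>
    obtain ⟨i1, i2, i3, i4⟩ := ih
    have j1 : ∀ x, (∀ h, x ≠ c h) → U (i + 1) x = K * (GE B ((n : ℂ) - 2) (i + 1)).1 := by
      intro x hx
      rw [hUs, i4, i1 x hx, if_pos (fun h _ => hx h)]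
      simp only [GE]
      ring
    have j2 : ∀ h, U (i + 1) (c h) =
        if B h (i + 1) then 0 else K * (GE B ((n : ℂ) - 2) (i + 1)).2 := by
      intro h
      rw [hUs, i4, i2]
      by_cases ha : B h (i + 1)
      · rw [if_pos ha, if_neg, zero_mul]
        push Not
        exact ⟨h, ha, rfl⟩
      · have hm : B h i := (hB2 h i).resolve_right ha
        rw [if_neg ha, if_pos hm, if_pos]
        · simp only [GE]
          rw [if_neg (fun hh => ha (hh h))]
          ring
        · intro h' hh' he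
          by_cases hne : h = h'
          · subst hne
            exact ha hh'
          · exact hcn h h' hne he
    have j3 : (∀ h, B h (i + 1)) → (GE B ((n : ℂ) - 2) (i + 1)).2 = 0 := by
      intro hh
      simp only [GE]
      rw [if_pos hh]
    exact ⟨j1, j2, j3, htot (i + 1) j1 j2 j3⟩

/-- closed form of a sequence with one forbidden colour -/
theorem U_same {n : ℕ} {x0 : Fin n} {K : ℂ} {U : ℕ → Fin n → ℂ}
    (hU0 : ∀ x, U 0 x = if x = x0 then 0 else K)
    (hUs : ∀ i x, U (i + 1) x = (if x = x0 then 0 else 1) * (∑ y, U i y - U i x)) (i : ℕ) :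
    (∀ x, U i x = if x = x0 then 0 else K * ((n : ℂ) - 2) ^ i) ∧
    ∑ y, U i y = ((n : ℂ) - 1) * (K * ((n : ℂ) - 2) ^ i) := by
  have htot : ∀ i, (∀ x, U i x = if x = x0 then 0 else K * ((n : ℂ) - 2) ^ i) →
      ∑ y, U i y = ((n : ℂ) - 1) * (K * ((n : ℂ) - 2) ^ i) := by
    intro i hi
    have : ∀ x, U i x = K * ((n : ℂ) - 2) ^ i - if x = x0 then K * ((n : ℂ) - 2) ^ i else 0 := by
      intro x
      rw [hi x]
      split_ifs <;> ring
    rw [Finset.sum_congr rfl fun x _ => this x, Finset.sum_sub_distrib]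
    simp
    ring
  induction i with
  | zero =>
    have h1 : ∀ x, U 0 x = if x = x0 then 0 else K * ((n : ℂ) - 2) ^ 0 := by
      intro x
      rw [hU0]
      simp
    exact ⟨h1, htot 0 h1⟩
  | succ i ih =>
    have h1 : ∀ x, U (i + 1) x = if x = x0 then 0 else K * ((n : ℂ) - 2) ^ (i + 1) := by
      intro x
      rw [hUs, ih.2, ih.1 x]
      split_ifs
      · ring
      · ring
    exact ⟨h1, htot (i + 1) h1⟩

end Pool.Agent.Y281.CR
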