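import Mathlib

set_option autoImplicit false

namespace Pool.Agent.Y281.CR

/-- `p` is the chromatic polynomial of the graph `G`: its value at every natural number `n` is the
number of proper colourings of `G` with `n` colours. -/
def IsChromPoly {V : Type} (G : SimpleGraph V) (p : Polynomial ℂ) : Prop :=
  ∀ n : ℕ, p.eval (n : ℂ) = (Nat.card (G.Coloring (Fin n)) : ℂ)

/-- `G` is 3-connected: it has at least 4 vertices and stays connected after the deletion of any
set of at most 2 vertices. -/
def ThreeConnected {V : Type} [Fintype V] (G : SimpleGraph V) : Prop :=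
  4 ≤ Fintype.card V ∧ ∀ s : Finset V, s.card ≤ 2 → (G.induce {v | v ∉ s}).Connected

/-- `G` has a drawing in the plane with straight edges and without crossings: distinct vertices are
distinct points, no vertex lies on an edge which does not contain it, and two different edges have
no point in common except a common end. (By the theorem of Wagner and Fáry all finite planar
graphs have such a drawing.) -/
def StraightPlanar {V : Type} (G : SimpleGraph V) : Prop :=
  ∃ f : V → ℝ × ℝ, Function.Injective f ∧
    (∀ v a b, G.Adj a b → f v ∈ segment ℝ (f a) (f b) → v = a ∨ v = b) ∧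
    ∀ a b c d, G.Adj a b → G.Adj c d → s(a, b) ≠ s(c, d) → ∀ p, p ∈ segment ℝ (f a) (f b) →
      p ∈ segment ℝ (f c) (f d) → ∃ v, (v = a ∨ v = b) ∧ (v = c ∨ v = d) ∧ p = f v

/-- The set of the chromatic roots of the finite 3-connected planar graphs. -/
def ChromRoots3P : Set ℂ :=
  {q | ∃ (V : Type) (_ : Fintype V) (G : SimpleGraph V) (p : Polynomial ℂ),
    ThreeConnected G ∧ StraightPlanar G ∧ IsChromPoly G p ∧ p.eval q = 0}

/-- adjacency in the graph below -/
def adjH (M : ℕ) (A : Bool → ℕ → Prop) : Bool ⊕ Fin (M + 1) → Bool ⊕ Fin (M + 1) → Prop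
  | Sum.inl _, Sum.inl _ => False
  | Sum.inl h, Sum.inr i => A h i
  | Sum.inr i, Sum.inl h => A h i
  | Sum.inr i, Sum.inr j => (i : ℕ) + 1 = j ∨ (j : ℕ) + 1 = i

/-- The path `0, …, M` with two hubs, the hub `h` is joined to the vertices `i` with `A h i`. -/
def HG (M : ℕ) (A : Bool → ℕ → Prop) : SimpleGraph (Bool ⊕ Fin (M + 1)) where
  Adj := adjH M A
  symm := ⟨by
    rintro (h | i) (h' | j) hh
    · exact hh
    · exact hh
    · exact hh
    · exact hh.symm⟩
  loopless := ⟨by
    rintro (h | i) hh
    · exact hh
    · rcases hh with hh | hh <;> omega⟩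

end Pool.Agent.Y281.CR
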