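import Pool.Agent.Y281.CR.Reg

set_option autoImplicit false

namespace Pool.Agent.Y281.CR
open Filter Topology Metric

/-- the larger root -/
theorem exists_l {z : ℂ} (hz : z.re ≠ 0) : ∃ l : ℂ, 1 < ‖l‖ ∧ z = l - l⁻¹ := by
  obtain ⟨d, hd⟩ : ∃ d : ℂ, d ^ 2 = z ^ 2 + 4 := ⟨(z ^ 2 + 4) ^ ((1 : ℂ) / 2), by
    rw [← Complex.cpow_nat_mul]; norm_num⟩
  -- the two roots `(z ± d) / 2`
  have key : ∀ l : ℂ, l ^ 2 - z * l - 1 = 0 → l ≠ 0 ∧ z = l - l⁻¹ ∧ ‖l‖ ≠ 1 := by
    intro l hl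
    have h0 : l ≠ 0 := by
      intro h
      rw [h] at hl
      norm_num at hl
    have h1 : z = l - l⁻¹ := by
      field_simp
      linear_combination -hl
    refine ⟨h0, h1, ?_⟩
    intro h2
    apply hz
    have h3 : Complex.normSq l = 1 := by rw [Complex.normSq_eq_norm_sq, h2]; norm_num
    rw [h1, Complex.sub_re, Complex.inv_re, h3]
    simp
  obtain ⟨x, hx⟩ : ∃ x, x = (z + d) / 2 := ⟨_, rfl⟩
  obtain ⟨y, hy⟩ : ∃ y, y = (z - d) / 2 := ⟨_, rfl⟩
  have hxy : x * y = -1 := by rw [hx, hy]; linear_combination (-1 / 4) * hd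
  have ex : x ^ 2 - z * x - 1 = 0 := by rw [hx]; linear_combination (1 / 4) * hd
  have ey : y ^ 2 - z * y - 1 = 0 := by rw [hy]; linear_combination (1 / 4) * hd
  obtain ⟨x0, x1, x2⟩ := key x ex
  obtain ⟨y0, y1, y2⟩ := key y ey
  rcases lt_or_gt_of_ne x2 with h | h
  · refine ⟨y, ?_, y1⟩
    have h3 : ‖x‖ * ‖y‖ = 1 := by rw [← norm_mul, hxy, norm_neg, norm_one]
    have h4 := norm_pos_iff.mpr x0
    by_contra hcon
    push Not at hcon
    have h5 := norm_pos_iff.mpr y0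
    nlinarith
  · exact ⟨x, h, x1⟩

/-- comparison of `|l|` and `|z|` -/
theorem cmp {l z : ℂ} (hl : 1 < ‖l‖) (hz : z = l - l⁻¹) :
    (-1 < z.re ^ 2 - z.im ^ 2 → ‖z‖ < ‖l‖) ∧ (z.re ^ 2 - z.im ^ 2 < -(3 / 2) → ‖l‖ < ‖z‖) := by
  have hl0 : l ≠ 0 := by
    intro h
    rw [h, norm_zero] at hl
    linarith
  obtain ⟨s, hs⟩ : ∃ s, s = l ^ 2 := ⟨_, rfl⟩
  have hs0 : s ≠ 0 := by rw [hs]; exact pow_ne_zero _ hl0
  have hsn : ‖s‖ = ‖l‖ ^ 2 := by rw [hs, norm_pow]
  have hs1 : 1 < ‖s‖ := by rw [hsn]; nlinarith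
  have hN : 1 < Complex.normSq s := by rw [Complex.normSq_eq_norm_sq]; nlinarith
  have h1 : z ^ 2 + 2 = s + s⁻¹ := by
    rw [hz, hs]
    field_simp
    ring
  have h2 : z.re ^ 2 - z.im ^ 2 + 2 = s.re * (1 + (Complex.normSq s)⁻¹) := by
    have := congrArg Complex.re h1
    rw [Complex.add_re, Complex.add_re, Complex.inv_re, pow_two, Complex.mul_re] at this
    simp only [Complex.re_ofNat] at this
    have e : s.re * (1 + (Complex.normSq s)⁻¹) = s.re + s.re / Complex.normSq s := by ring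
    rw [e, ← this]
    ring
  have hi0 : 0 < (Complex.normSq s)⁻¹ := by positivity
  have hi1 : (Complex.normSq s)⁻¹ < 1 := inv_lt_one_of_one_lt₀ hN
  have h3 : ‖z‖ * ‖l‖ = ‖s - 1‖ := by
    rw [← norm_mul, hz, hs]
    congr 1
    field_simp
  have hsq : ‖s - 1‖ ^ 2 = ‖s‖ ^ 2 - 2 * s.re + 1 := by
    rw [← Complex.normSq_eq_norm_sq, ← Complex.normSq_eq_norm_sq, Complex.normSq_apply,
      Complex.normSq_apply]
    simp
    ring
  have hlpos : 0 < ‖l‖ := by linarith
  constructor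
  · intro h
    have h4 : 1 / 2 < s.re := by
      by_contra hcon
      push Not at hcon
      nlinarith
    have h5 : ‖s - 1‖ < ‖s‖ := by
      apply lt_of_pow_lt_pow_left₀ 2 (norm_nonneg _)
      rw [hsq]
      linarith
    rw [← h3, hsn] at h5
    nlinarith
  · intro h
    have h4 : s.re < 1 / 2 := by
      by_contra hcon
      push Not at hcon
      nlinarith
    have h5 : ‖s‖ < ‖s - 1‖ := by
      apply lt_of_pow_lt_pow_left₀ 2 (norm_nonneg _)
      rw [hsq]
      linarith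
    rw [← h3, hsn] at h5
    nlinarith

theorem norm_div_one {z : ℂ} (hz : z ≠ 0) :
    (1 / 2 < z.re → ‖(z - 1) / z‖ < 1) ∧ (z.re < 1 / 2 → 1 < ‖(z - 1) / z‖) := by
  have h0 : 0 < ‖z‖ := norm_pos_iff.mpr hz
  have hsq : ‖z - 1‖ ^ 2 = ‖z‖ ^ 2 - 2 * z.re + 1 := by
    rw [← Complex.normSq_eq_norm_sq, ← Complex.normSq_eq_norm_sq, Complex.normSq_apply,
      Complex.normSq_apply]
    simp
    ring
  constructor
  · intro h
    rw [norm_div, div_lt_one h0]
    apply lt_of_pow_lt_pow_left₀ 2 (norm_nonneg _)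
    rw [hsq]
    linarith
  · intro h
    rw [norm_div, one_lt_div h0]
    apply lt_of_pow_lt_pow_left₀ 2 (norm_nonneg _)
    rw [hsq]
    linarith

/-- the first case, general form -/
theorem gen1 {l z : ℂ} (hl : 1 < ‖l‖) (hz : z = l - l⁻¹) (h1 : 1 / 2 < z.re) (hlz : ‖z‖ < ‖l‖)
    (h3 : z ≠ 1) : z + 2 ∈ closure ChromRoots3P := by
  have hz0 : z ≠ 0 := by
    intro h
    rw [h] at h1
    norm_num at h1
  obtain ⟨c1, c2, c3⟩ := lim hl hz
  have hl0 : l ≠ 0 := by
    intro h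
    rw [h, norm_zero] at hl
    linarith
  have hzp : 0 < ‖z‖ := norm_pos_iff.mpr hz0
  -- the ratio tends to infinity
  have t1 : Tendsto (fun k : ℕ => ‖(bet z k).1 / z ^ k‖) atTop atTop := by
    have e : ∀ k : ℕ, ‖(bet z k).1 / z ^ k‖ = ‖(bet z k).1 / l ^ k‖ * (‖l‖ / ‖z‖) ^ k := by
      intro k
      have : (bet z k).1 / z ^ k = (bet z k).1 / l ^ k * (l / z) ^ k := by
        rw [div_pow]
        have a := pow_ne_zero k hl0
        have b := pow_ne_zero k hz0
        field_simp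
      rw [this, norm_mul, norm_pow, norm_div l z]
    simp only [e]
    refine Tendsto.pos_mul_atTop (C := ‖l * (l - 1) / (l ^ 2 + 1)‖)
      (norm_pos_iff.mpr (div_ne_zero c2 c1)) c3.norm ?_
    exact tendsto_pow_atTop_atTop_of_one_lt ((one_lt_div hzp).mpr hlz)
  obtain ⟨k, hk1, hk2⟩ := ((t1.eventually_gt_atTop 1).and (eventually_ge_atTop 2)).exists
  have hB : (bet z k).1 ≠ 0 := by
    intro h
    rw [h, zero_div, norm_zero] at hk1
    linarith
  refine dense_at hk2 hz0 h3 hB ?_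
  have g1 := (norm_div_one hz0).1 h1
  have g0 : 0 < ‖(z - 1) / z‖ := norm_pos_iff.mpr (div_ne_zero (sub_ne_zero.mpr h3) hz0)
  exact mul_neg_of_neg_of_pos (Real.log_neg g0 g1) (Real.log_pos hk1)

/-- the second case, general form -/
theorem gen2 {l z : ℂ} (hl : 1 < ‖l‖) (hz : z = l - l⁻¹) (h1 : z.re < 1 / 2) (hlz : ‖l‖ < ‖z‖) :
    z + 2 ∈ closure ChromRoots3P := by
  have hz0 : z ≠ 0 := by
    intro h
    rw [h, norm_zero] at hlz
    linarith
  have hz1 : z ≠ 1 := by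
    intro h
    rw [h] at h1
    norm_num at h1
  obtain ⟨c1, c2, c3⟩ := lim hl hz
  have hl0 : l ≠ 0 := by
    intro h
    rw [h, norm_zero] at hl
    linarith
  have hzp : 0 < ‖z‖ := norm_pos_iff.mpr hz0
  have t1 : Tendsto (fun k : ℕ => ‖(bet z k).1 / z ^ k‖) atTop (𝓝 0) := by
    have e : ∀ k : ℕ, ‖(bet z k).1 / z ^ k‖ = ‖(bet z k).1 / l ^ k‖ * (‖l‖ / ‖z‖) ^ k := by
      intro k
      have : (bet z k).1 / z ^ k = (bet z k).1 / l ^ k * (l / z) ^ k := by
        rw [div_pow]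
        have a := pow_ne_zero k hl0
        have b := pow_ne_zero k hz0
        field_simp
      rw [this, norm_mul, norm_pow, norm_div l z]
    simp only [e]
    have := c3.norm.mul (tendsto_pow_atTop_nhds_zero_of_lt_one (r := ‖l‖ / ‖z‖) (by positivity)
      ((div_lt_one hzp).mpr hlz))
    simpa using this
  have t2 : ∀ᶠ k : ℕ in atTop, (bet z k).1 / l ^ k ≠ 0 :=
    c3.eventually_ne (div_ne_zero c2 c1)
  obtain ⟨k, hk1, hk2, hk3⟩ := ((t1.eventually_lt_const zero_lt_one).and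
    (t2.and (eventually_ge_atTop 2))).exists
  have hB : (bet z k).1 ≠ 0 := by
    intro h
    rw [h, zero_div] at hk2
    exact hk2 rfl
  refine dense_at hk3 hz0 hz1 hB ?_
  have g1 := (norm_div_one hz0).2 h1
  have g0 : 0 < ‖(bet z k).1 / z ^ k‖ := norm_pos_iff.mpr (div_ne_zero hB (pow_ne_zero _ hz0))
  exact mul_neg_of_pos_of_neg (Real.log_pos g1) (Real.log_neg g0 hk1)

/-- the first region -/
theorem region1 {z : ℂ} (h1 : 1 / 2 < z.re) (h2 : z.im ^ 2 < z.re ^ 2 + 1) (h3 : z ≠ 1) :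
    z + 2 ∈ closure ChromRoots3P := by
  obtain ⟨l, hl, hz⟩ := exists_l (z := z) (by linarith)
  exact gen1 hl hz h1 ((cmp hl hz).1 (by linarith)) h3

/-- the second region -/
theorem region2 {z : ℂ} (h1 : z.re < 1 / 2) (h2 : z.re ^ 2 + 3 / 2 < z.im ^ 2) (h3 : z.re ≠ 0) :
    z + 2 ∈ closure ChromRoots3P := by
  obtain ⟨l, hl, hz⟩ := exists_l h3
  exact gen2 hl hz h1 ((cmp hl hz).2 (by linarith))

/-- **the theorem** -/
theorem main (q : ℂ) (hq : (5 / 2 ≤ q.re ∧ q.im ^ 2 ≤ (q.re - 2) ^ 2 + 1) ∨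
    (q.re ≤ 5 / 2 ∧ (q.re - 2) ^ 2 + 3 / 2 ≤ q.im ^ 2)) : q ∈ closure ChromRoots3P := by
  rw [← closure_closure, Metric.mem_closure_iff]
  intro ε hε
  rcases hq with ⟨h1, h2⟩ | ⟨h1, h2⟩
  · have key : ∀ t : ℝ, 0 < t → q + t ≠ 3 → q + t ∈ closure ChromRoots3P := by
      intro t ht hne
      have := region1 (z := q + t - 2) (by simp; linarith) (by simp; nlinarith) (by
        intro h
        apply hne
        linear_combination h)
      have e : q + t - 2 + 2 = q + t := by ring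
      rwa [e] at this
    have hd : ∀ t : ℝ, 0 < t → t < ε → dist q (q + t) < ε := by
      intro t ht hte
      rw [dist_eq_norm]
      have : q - (q + t) = -(t : ℂ) := by ring
      rw [this, norm_neg, Complex.norm_real, Real.norm_of_nonneg ht.le]
      exact hte
    by_cases h3 : q + ((ε / 2 : ℝ) : ℂ) = 3
    · refine ⟨q + ((ε / 4 : ℝ) : ℂ), key _ (by positivity) ?_, hd _ (by positivity) (by linarith)⟩
      intro h4
      have : ((ε / 2 : ℝ) : ℂ) = ((ε / 4 : ℝ) : ℂ) := by linear_combination h3 - h4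
      have h5 : ε / 2 = ε / 4 := by exact_mod_cast this
      linarith
    · exact ⟨q + ((ε / 2 : ℝ) : ℂ), key _ (by positivity) h3, hd _ (by positivity) (by linarith)⟩
  · -- move to the left and away from the real axis
    obtain ⟨σ, hσ, hσq⟩ : ∃ σ : ℝ, |σ| = 1 ∧ 0 ≤ σ * q.im := by
      rcases le_total 0 q.im with h | h
      · exact ⟨1, by simp, by linarith⟩
      · exact ⟨-1, by simp, by linarith⟩
    have hσ2 : σ ^ 2 = 1 := by rw [← sq_abs, hσ]; norm_num
    have him : 1 ≤ σ * q.im := by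
      have h3 : (σ * q.im) ^ 2 = q.im ^ 2 := by rw [mul_pow, hσ2, one_mul]
      have h4 : 3 / 2 ≤ (σ * q.im) ^ 2 := by rw [h3]; nlinarith [sq_nonneg (q.re - 2)]
      nlinarith
    obtain ⟨D, hD⟩ : ∃ D, D = |q.re - 2| + 1 := ⟨_, rfl⟩
    have hD1 : 1 ≤ D := by rw [hD]; linarith [abs_nonneg (q.re - 2)]
    obtain ⟨t, ht0, ht1, ht2, ht3, ht4⟩ : ∃ t : ℝ, 0 < t ∧ t < 1 ∧ t < ε / 2 ∧ t * D < 1 ∧
        q.re - t ^ 2 ≠ 2 := by
      have hev : ∀ᶠ t : ℝ in 𝓝[>] 0, t < 1 ∧ t < ε / 2 ∧ t * D < 1 ∧ q.re - t ^ 2 ≠ 2 := by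
        have e1 : ∀ᶠ t : ℝ in 𝓝[>] 0, t < 1 := by
          filter_upwards [Ioo_mem_nhdsGT (show (0 : ℝ) < 1 by norm_num)] with t ht using ht.2
        have e2 : ∀ᶠ t : ℝ in 𝓝[>] 0, t < ε / 2 := by
          filter_upwards [Ioo_mem_nhdsGT (show (0 : ℝ) < ε / 2 by positivity)] with t ht using ht.2
        have e3 : ∀ᶠ t : ℝ in 𝓝[>] 0, t * D < 1 := by
          filter_upwards [Ioo_mem_nhdsGT (show (0 : ℝ) < 1 / D by positivity)] with t ht
          have := ht.2
          rwa [lt_div_iff₀ (by linarith)] at this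
        have e4 : ∀ᶠ t : ℝ in 𝓝[>] 0, q.re - t ^ 2 ≠ 2 := by
          rcases lt_or_ge 2 q.re with h | h
          · filter_upwards [Ioo_mem_nhdsGT (show (0 : ℝ) < min 1 (q.re - 2) from
              lt_min one_pos (by linarith))] with t ht
            have a1 := ht.1
            have a2 := lt_of_lt_of_le ht.2 (min_le_left _ _)
            have a3 := lt_of_lt_of_le ht.2 (min_le_right _ _)
            intro h5
            nlinarith
          · filter_upwards [self_mem_nhdsWithin] with t ht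
            have : 0 < t := ht
            intro h5
            nlinarith [pow_pos this 2]
        filter_upwards [e1, e2, e3, e4] with t a b c d using ⟨a, b, c, d⟩
      obtain ⟨t, ht, ht'⟩ := (hev.and self_mem_nhdsWithin).exists
      exact ⟨t, ht', ht.1, ht.2.1, ht.2.2.1, ht.2.2.2⟩
    have hab := abs_le.mp (le_of_eq (show |q.re - 2| = |q.re - 2| from rfl))
    have hw := region2 (z := ⟨q.re - t ^ 2 - 2, q.im + σ * t⟩) (by simp only; nlinarith [pow_pos ht0 2])
      (by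
        simp only
        have a1 : (q.im + σ * t) ^ 2 = q.im ^ 2 + 2 * (σ * q.im) * t + t ^ 2 := by
          have : (q.im + σ * t) ^ 2 = q.im ^ 2 + 2 * (σ * q.im) * t + σ ^ 2 * t ^ 2 := by ring
          rw [this, hσ2, one_mul]
        have a2 : (q.re - t ^ 2 - 2) ^ 2 ≤ (q.re - 2) ^ 2 + 2 * t ^ 2 * (D - 1) + t ^ 4 := by
          have h5 : -(q.re - 2) ≤ D - 1 := by rw [hD]; linarith [neg_abs_le (q.re - 2)]
          have : (q.re - t ^ 2 - 2) ^ 2 = (q.re - 2) ^ 2 + 2 * t ^ 2 * (-(q.re - 2)) + t ^ 4 := by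
            ring
          rw [this]
          have := mul_le_mul_of_nonneg_left h5 (by positivity : 0 ≤ 2 * t ^ 2)
          linarith
        have a3 : t ^ 2 * D < t := by
          have : t ^ 2 * D = t * (t * D) := by ring
          rw [this]
          nlinarith
        have a4 : t ^ 4 ≤ t ^ 2 := by
          have : t ^ 2 ≤ 1 := by nlinarith
          nlinarith [sq_nonneg t]
        have a5 : t ≤ σ * q.im * t := by nlinarith
        rw [a1]
        nlinarith)
      (by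
        simp only
        intro h5
        apply ht4
        linarith)
    refine ⟨_, hw, ?_⟩
    rw [dist_eq_norm]
    have e : q - ((⟨q.re - t ^ 2 - 2, q.im + σ * t⟩ : ℂ) + 2) = ⟨t ^ 2, -(σ * t)⟩ := by
      apply Complex.ext
      · simp
      · simp
    rw [e]
    refine lt_of_le_of_lt (Complex.norm_le_abs_re_add_abs_im _) ?_
    simp only [abs_neg, abs_mul, hσ, one_mul, abs_of_pos ht0, abs_of_pos (pow_pos ht0 2)]
    nlinarith

end Pool.Agent.Y281.CR
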