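import Pool.Agent.Y281.CR.Pat

set_option autoImplicit false

namespace Pool.Agent.Y281.CR

/-- the hubs: `none = N`, `some true = T`, `some false = S`; only `N` and `T` are adjacent -/
def hubAdj : Option Bool → Option Bool → Prop
  | none, some true => True
  | some true, none => True
  | _, _ => False

def adj3 (M : ℕ) (A : Option Bool → ℕ → Prop) :
    Option Bool ⊕ Fin (M + 1) → Option Bool ⊕ Fin (M + 1) → Prop
  | Sum.inl h, Sum.inl h' => hubAdj h h'
  | Sum.inl h, Sum.inr i => A h i
  | Sum.inr i, Sum.inl h => A h i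
  | Sum.inr i, Sum.inr j => (i : ℕ) + 1 = j ∨ (j : ℕ) + 1 = i

/-- The path `0, …, M` with three hubs. -/
def TG (M : ℕ) (A : Option Bool → ℕ → Prop) : SimpleGraph (Option Bool ⊕ Fin (M + 1)) where
  Adj := adj3 M A
  symm := ⟨by
    rintro (h | i) (h' | j) hh
    · rcases h with _ | _ | _ <;> rcases h' with _ | _ | _ <;> exact hh
    · exact hh
    · exact hh
    · exact hh.symm⟩
  loopless := ⟨by
    rintro (h | i) hh
    · rcases h with _ | _ | _ <;> exact hh
    · rcases hh with hh | hh <;> omega⟩

variable {M : ℕ} {A : Option Bool → ℕ → Prop}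

theorem walk3 {s : Finset (Option Bool ⊕ Fin (M + 1))} (i d : ℕ) (hid : i + d < M + 1)
    (h : ∀ t : Fin (M + 1), i ≤ t → (t : ℕ) ≤ i + d → Sum.inr t ∉ s) :
    Cn (TG M A) s (Sum.inr ⟨i, by omega⟩) (Sum.inr ⟨i + d, hid⟩) := by
  induction d with
  | zero => exact Cn.refl (h ⟨i, by omega⟩ le_rfl (by simp))
  | succ d ih =>
    refine (ih (by omega) (fun t h1 h2 => h t h1 (by omega))).trans ?_
    refine Cn.adj (h ⟨i + d, by omega⟩ (by simp) (by simp))
      (h ⟨i + (d + 1), hid⟩ (by simp) (by simp)) ?_
    left
    simp only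
    omega

/-- a remaining path vertex reaches the left end or the right end -/
theorem ends {s : Finset (Option Bool ⊕ Fin (M + 1))}
    (hone : ∀ i j : Fin (M + 1), Sum.inr i ∈ s → Sum.inr j ∈ s → i = j) (j : Fin (M + 1))
    (hj : Sum.inr j ∉ s) :
    (Sum.inr ⟨0, by omega⟩ ∉ s ∧ Cn (TG M A) s (Sum.inr ⟨0, by omega⟩) (Sum.inr j)) ∨
    (Sum.inr ⟨M, by omega⟩ ∉ s ∧ Cn (TG M A) s (Sum.inr ⟨M, by omega⟩) (Sum.inr j)) := by
  by_cases hl : ∀ t : Fin (M + 1), (t : ℕ) ≤ j → Sum.inr t ∉ s
  · left
    have hw := walk3 (A := A) (s := s) 0 j (by omega) (fun t _ ht => hl t (by omega))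
    exact ⟨hl ⟨0, by omega⟩ (by simp), by simpa using hw⟩
  · right
    push Not at hl
    obtain ⟨t, ht, hts⟩ := hl
    have htj : (t : ℕ) ≠ j := by
      intro e
      have : t = j := Fin.ext e
      subst this
      exact hj hts
    have hr : ∀ t' : Fin (M + 1), (j : ℕ) ≤ t' → Sum.inr t' ∉ s := by
      intro t' ht' hmem
      have := hone t t' hts hmem
      subst this
      omega
    have hw := walk3 (A := A) (s := s) j (M - j) (by omega) (fun t' ht' _ => hr t' ht')
    have e : (⟨j + (M - j), by omega⟩ : Fin (M + 1)) = ⟨M, by omega⟩ := Fin.ext (by simp only; omega)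
    rw [e] at hw
    exact ⟨hr ⟨M, by omega⟩ (by simp only; omega), by simpa using hw.symm⟩

theorem three_notMem {V : Type} [DecidableEq V] {s : Finset V} (hs : s.card ≤ 2) {x y z : V}
    (hxy : x ≠ y) (hxz : x ≠ z) (hyz : y ≠ z) : x ∉ s ∨ y ∉ s ∨ z ∉ s := by
  by_contra hcon
  push Not at hcon
  obtain ⟨h1, h2, h3⟩ := hcon
  have hsub : ({x, y, z} : Finset V) ⊆ s := by
    intro t ht
    simp only [Finset.mem_insert, Finset.mem_singleton] at ht
    rcases ht with rfl | rfl | rfl
    · exact h1
    · exact h2
    · exact h3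
  have hcard := Finset.card_le_card hsub
  rw [Finset.card_insert_of_notMem (by simp [hxy, hxz]),
    Finset.card_insert_of_notMem (by simpa using hyz), Finset.card_singleton] at hcard
  omega

theorem threeConnected3 {a : ℕ} (ha : 1 ≤ a) (haM : a < M)
    (hA : ∀ i, ∃ h, A h i) (hS0 : A (some false) 0) (hSa : A (some false) a)
    (hSM : A (some false) M) (hN0 : A none 0) (hNa : A none a) (hTa : A (some true) a)
    (hTM : A (some true) M) : ThreeConnected (TG M A) := by
  classical
  refine ⟨by simp; omega, ?_⟩
  intro s hs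
  rw [SimpleGraph.connected_iff_exists_forall_reachable]
  suffices h : ∃ b, ∀ v, v ∉ s → Cn (TG M A) s b v by
    obtain ⟨b, hb⟩ := h
    have hex : ∃ v, v ∉ s := by
      by_contra hcon
      push Not at hcon
      have : Fintype.card (Option Bool ⊕ Fin (M + 1)) ≤ s.card :=
        Finset.card_le_card (s := Finset.univ) (fun x _ => hcon x)
      simp at this
      omega
    obtain ⟨v0, hv0⟩ := hex
    obtain ⟨hb0, -, -⟩ := hb v0 hv0
    refine ⟨⟨b, hb0⟩, ?_⟩
    rintro ⟨v, hv⟩
    obtain ⟨h1, h2, h3⟩ := hb v hv
    exact h3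
  set x0 : Fin (M + 1) := ⟨0, by omega⟩ with hx0
  set xa : Fin (M + 1) := ⟨a, by omega⟩ with hxa
  set xM : Fin (M + 1) := ⟨M, by omega⟩ with hxM
  have n0a : x0 ≠ xa := fun h => by have := congrArg Fin.val h; simp [hx0, hxa] at this; omega
  have n0M : x0 ≠ xM := fun h => by have := congrArg Fin.val h; simp [hx0, hxM] at this; omega
  have naM : xa ≠ xM := fun h => by have := congrArg Fin.val h; simp [hxM, hxa] at this; omega
  have NT : (TG M A).Adj (Sum.inl none) (Sum.inl (some true)) := trivial
  by_cases hS : Sum.inl (some false) ∈ s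
  · by_cases hp : ∃ j : Fin (M + 1), Sum.inr j ∈ s
    · -- `S` and one path vertex
      obtain ⟨j, hj⟩ := hp
      have hall : ∀ v, v ≠ Sum.inl (some false) → v ≠ Sum.inr j → v ∉ s := by
        intro v h1 h2
        rcases three_notMem hs (x := Sum.inl (some false)) (y := Sum.inr j) (z := v) (by simp)
          (Ne.symm h1) (Ne.symm h2) with h | h | h
        · exact absurd hS h
        · exact absurd hj h
        · exact h
      have hN : Sum.inl none ∉ s := hall _ (by simp) (by simp)
      have hT : Sum.inl (some true) ∉ s := hall _ (by simp) (by simp)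
      have hone : ∀ i i' : Fin (M + 1), Sum.inr i ∈ s → Sum.inr i' ∈ s → i = i' := by
        intro i i' h1 h2
        have e1 : i = j := by
          by_contra hne
          exact hall (Sum.inr i) (by simp) (by simpa using hne) h1
        have e2 : i' = j := by
          by_contra hne
          exact hall (Sum.inr i') (by simp) (by simpa using hne) h2
        rw [e1, e2]
      refine ⟨Sum.inl none, ?_⟩
      rintro ((_ | _ | _) | i) hv
      · exact Cn.refl hN
      · exact absurd hS hv
      · exact Cn.adj hN hT NT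
      · rcases ends (A := A) hone i hv with ⟨h1, h2⟩ | ⟨h1, h2⟩
        · exact (Cn.adj hN h1 hN0).trans h2
        · exact ((Cn.adj hN hT NT).trans (Cn.adj hT h1 hTM)).trans h2
    · -- no path vertex is removed
      push Not at hp
      have hcon : ∀ i : Fin (M + 1), Cn (TG M A) s (Sum.inr x0) (Sum.inr i) := by
        intro i
        have := walk3 (A := A) (s := s) 0 i (by omega) (fun t _ _ => hp t)
        simp only [Nat.zero_add] at this
        exact this
      refine ⟨Sum.inr x0, ?_⟩
      rintro ((_ | _ | _) | i) hv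
      · exact Cn.adj (hp _) hv hN0
      · exact absurd hS hv
      · exact (hcon xM).trans (Cn.adj (hp _) hv hTM)
      · exact hcon i
  · by_cases hone : ∀ i j : Fin (M + 1), Sum.inr i ∈ s → Sum.inr j ∈ s → i = j
    · -- at most one path vertex is removed
      have hpath : ∀ i : Fin (M + 1), Sum.inr i ∉ s →
          Cn (TG M A) s (Sum.inl (some false)) (Sum.inr i) := by
        intro i hi
        rcases ends (A := A) hone i hi with ⟨h1, h2⟩ | ⟨h1, h2⟩
        · exact (Cn.adj hS h1 hS0).trans h2
        · exact (Cn.adj hS h1 hSM).trans h2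
      refine ⟨Sum.inl (some false), ?_⟩
      rintro ((_ | _ | _) | i) hv
      · by_cases h0 : Sum.inr x0 ∈ s
        · have h1 : Sum.inr xa ∉ s := fun h => n0a (hone _ _ h0 h)
          exact (hpath xa h1).trans (Cn.adj h1 hv hNa)
        · exact (hpath x0 h0).trans (Cn.adj h0 hv hN0)
      · exact Cn.refl hv
      · by_cases h0 : Sum.inr xM ∈ s
        · have h1 : Sum.inr xa ∉ s := fun h => naM (hone _ _ h h0)
          exact (hpath xa h1).trans (Cn.adj h1 hv hTa)
        · exact (hpath xM h0).trans (Cn.adj h0 hv hTM)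
      · exact hpath i hv
    · -- two path vertices are removed, all hubs remain
      push Not at hone
      obtain ⟨i, j, hi, hj, hij⟩ := hone
      have hub : ∀ h : Option Bool, Sum.inl h ∉ s := by
        intro h
        rcases three_notMem hs (x := Sum.inr i) (y := Sum.inr j) (z := Sum.inl h)
          (by simpa using hij) (by simp) (by simp) with h1 | h1 | h1
        · exact absurd hi h1
        · exact absurd hj h1
        · exact h1
      have cNT : Cn (TG M A) s (Sum.inl none) (Sum.inl (some true)) := Cn.adj (hub _) (hub _) NT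
      have cSN : Cn (TG M A) s (Sum.inl (some false)) (Sum.inl none) := by
        rcases three_notMem hs (x := Sum.inr x0) (y := Sum.inr xa) (z := Sum.inr xM)
          (by simpa using n0a) (by simpa using n0M) (by simpa using naM) with h1 | h1 | h1
        · exact (Cn.adj (hub _) h1 hS0).trans (Cn.adj h1 (hub _) hN0)
        · exact (Cn.adj (hub _) h1 hSa).trans (Cn.adj h1 (hub _) hNa)
        · exact ((Cn.adj (hub _) h1 hSM).trans (Cn.adj h1 (hub _) hTM)).trans cNT.symm
      have call : ∀ h : Option Bool, Cn (TG M A) s (Sum.inl (some false)) (Sum.inl h) := by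
        rintro (_ | _ | _)
        · exact cSN
        · exact Cn.refl (hub _)
        · exact cSN.trans cNT
      refine ⟨Sum.inl (some false), ?_⟩
      rintro (h | i) hv
      · exact call h
      · obtain ⟨h, hh⟩ := hA i
        exact (call h).trans (Cn.adj (hub h) hv hh)

end Pool.Agent.Y281.CR
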