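import Pool.Agent.Y281.CR.Plan
import Pool.Agent.Y281.CR.Three

set_option autoImplicit false

namespace Pool.Agent.Y281.CR

variable {M : ℕ} {A : Option Bool → ℕ → Prop}

/-- heights of the hubs -/
def hy : Option Bool → ℝ
  | none => 1
  | some true => 1
  | some false => -1

/-- first coordinates of the hubs -/
def hx : Option Bool → ℝ
  | none => 0
  | some true => 1
  | some false => 0

/-- the drawing -/
noncomputable def dr3 (M : ℕ) : Option Bool ⊕ Fin (M + 1) → ℝ × ℝ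
  | Sum.inl h => (hx h, hy h)
  | Sum.inr i => (((i : ℕ) : ℝ), 0)

theorem hy_ne (h : Option Bool) : hy h ≠ 0 := by
  rcases h with _ | _ | _ <;> simp [hy]

theorem dr3_inj (M : ℕ) : Function.Injective (dr3 M) := by
  rintro (h | i) (h' | j) e
  · simp only [dr3, Prod.mk.injEq] at e
    rcases h with _ | _ | _ <;> rcases h' with _ | _ | _ <;>
      first
        | rfl
        | (simp only [hx, hy] at e; norm_num at e)
  · simp only [dr3, Prod.mk.injEq] at e
    exact absurd e.2 (hy_ne h)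
  · simp only [dr3, Prod.mk.injEq] at e
    exact absurd e.2.symm (hy_ne h')
  · simp only [dr3, Prod.mk.injEq] at e
    have : (i : ℕ) = j := by exact_mod_cast e.1
    rw [Fin.ext this]

/-- the points of the edges -/
theorem seg_cases3 {a b : Option Bool ⊕ Fin (M + 1)} (h : (TG M A).Adj a b) {p : ℝ × ℝ}
    (hp : p ∈ segment ℝ (dr3 M a) (dr3 M b)) :
    (∃ (g : Option Bool) (i : Fin (M + 1)) (β : ℝ), A g i ∧ 0 ≤ β ∧ β ≤ 1 ∧
      p = ((1 - β) * hx g + β * (i : ℕ), (1 - β) * hy g) ∧ s(a, b) = s(Sum.inl g, Sum.inr i)) ∨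
    (∃ (i j : Fin (M + 1)) (t : ℝ), (i : ℕ) + 1 = j ∧ 0 ≤ t ∧ t ≤ 1 ∧
      p = (((i : ℕ) : ℝ) + t, 0) ∧ s(a, b) = s(Sum.inr i, Sum.inr j)) ∨
    (∃ t : ℝ, 0 ≤ t ∧ t ≤ 1 ∧ p = (t, 1) ∧ s(a, b) = s(Sum.inl none, Sum.inl (some true))) := by
  obtain ⟨α, β, hα, hβ, hs, rfl⟩ := hp
  have hα' : α = 1 - β := by linarith
  have hβ' : β = 1 - α := by linarith
  rcases a with g | i <;> rcases b with g' | j
  · right; right
    rcases g with _ | _ | _ <;> rcases g' with _ | _ | _ <;>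
      first
        | exact h.elim
        | (refine ⟨β, hβ, by linarith, ?_, rfl⟩
           simp only [dr3, hx, hy, hα', Prod.smul_mk, smul_eq_mul, Prod.mk_add_mk]
           ext <;> simp)
        | (refine ⟨α, hα, by linarith, ?_, Sym2.eq_swap⟩
           simp only [dr3, hx, hy, hβ', Prod.smul_mk, smul_eq_mul, Prod.mk_add_mk]
           ext <;> simp)
  · left
    refine ⟨g, j, β, h, hβ, by linarith, ?_, rfl⟩
    simp only [dr3, hα', Prod.smul_mk, smul_eq_mul, Prod.mk_add_mk]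
    ext <;> simp
  · left
    refine ⟨g', i, α, h, hα, by linarith, ?_, Sym2.eq_swap⟩
    simp only [dr3, hβ', Prod.smul_mk, smul_eq_mul, Prod.mk_add_mk]
    ext
    · simp only; ring
    · simp
  · right; left
    rcases h with h | h
    · refine ⟨i, j, β, h, hβ, by linarith, ?_, rfl⟩
      have e : ((j : ℕ) : ℝ) = (i : ℕ) + 1 := by rw [← h]; push_cast; ring
      simp only [dr3, hα', Prod.smul_mk, smul_eq_mul, Prod.mk_add_mk, e]
      ext
      · simp only; ring
      · simp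
    · refine ⟨j, i, α, h, hα, by linarith, ?_, Sym2.eq_swap⟩
      have e : ((i : ℕ) : ℝ) = (j : ℕ) + 1 := by rw [← h]; push_cast; ring
      simp only [dr3, hβ', Prod.smul_mk, smul_eq_mul, Prod.mk_add_mk, e]
      ext
      · simp only; ring
      · simp

/-- two edges from hubs to the path -/
theorem cross_hh {c : ℕ} (hN : ∀ i, A none i → i ≤ c) (hT : ∀ i, A (some true) i → c ≤ i)
    {g g' : Option Bool} {i i' : Fin (M + 1)} {β β' : ℝ} (hg : A g i) (hg' : A g' i')
    (b0 : 0 ≤ β) (b1 : β ≤ 1) (b0' : 0 ≤ β') (b1' : β' ≤ 1)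
    (u1 : (1 - β) * hx g + β * ((i : ℕ) : ℝ) = (1 - β') * hx g' + β' * ((i' : ℕ) : ℝ))
    (u2 : (1 - β) * hy g = (1 - β') * hy g') :
    (g = g' ∧ i = i') ∨ (g = g' ∧ β = 0 ∧ β' = 0) ∨ (i = i' ∧ β = 1 ∧ β' = 1) := by
  by_cases hgg : g = g'
  · subst hgg
    have hb : β = β' := by
      have := mul_right_cancel₀ (hy_ne g) u2
      linarith
    subst hb
    rcases eq_or_ne β 0 with hz | hz
    · exact Or.inr (Or.inl ⟨rfl, hz, hz⟩)
    · left
      have h1 : β * ((i : ℕ) : ℝ) = β * ((i' : ℕ) : ℝ) := by linarith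
      have : ((i : ℕ) : ℝ) = (i' : ℕ) := mul_left_cancel₀ hz h1
      have h3 : (i : ℕ) = i' := by exact_mod_cast this
      exact ⟨rfl, Fin.ext h3⟩
  · right; right
    have key : β = 1 → β' = 1 → i = i' ∧ β = 1 ∧ β' = 1 := by
      intro h1 h2
      rw [h1, h2] at u1
      simp only [sub_self, zero_mul, one_mul, zero_add] at u1
      have h3 : (i : ℕ) = i' := by exact_mod_cast u1
      exact ⟨Fin.ext h3, h1, h2⟩
    -- the case of the two upper hubs
    have up : ∀ {x y : Fin (M + 1)} {u v : ℝ}, A none x → A (some true) y → 0 ≤ u → u ≤ 1 →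
        u = v → (1 - u) * 0 + u * ((x : ℕ) : ℝ) = (1 - v) * 1 + v * ((y : ℕ) : ℝ) →
        u = 1 ∧ v = 1 := by
      intro x y u v h1 h2 h3 h4 h5 h6
      subst h5
      have h7 : ((x : ℕ) : ℝ) ≤ (y : ℕ) := by exact_mod_cast (hN _ h1).trans (hT _ h2)
      have h8 : u * ((x : ℕ) : ℝ) ≤ u * ((y : ℕ) : ℝ) := mul_le_mul_of_nonneg_left h7 h3
      constructor <;> linarith
    rcases g with _ | _ | _ <;> rcases g' with _ | _ | _
    · exact absurd rfl hgg
    · simp only [hy, hx] at u1 u2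
      exact key (by linarith) (by linarith)
    · simp only [hy, hx] at u1 u2
      obtain ⟨k1, k2⟩ := up hg hg' b0 b1 (by linarith) u1
      exact key k1 k2
    · simp only [hy, hx] at u1 u2
      exact key (by linarith) (by linarith)
    · exact absurd rfl hgg
    · simp only [hy, hx] at u1 u2
      exact key (by linarith) (by linarith)
    · simp only [hy, hx] at u1 u2
      obtain ⟨k1, k2⟩ := up hg' hg b0' b1' (by linarith) u1.symm
      exact key k2 k1
    · simp only [hy, hx] at u1 u2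
      exact key (by linarith) (by linarith)
    · exact absurd rfl hgg

/-- a hub edge and a path edge -/
theorem cross_hp {g : Option Bool} {i : Fin (M + 1)} {k l : Fin (M + 1)} {β t : ℝ}
    (hkl : (k : ℕ) + 1 = l) (t0 : 0 ≤ t) (t1 : t ≤ 1)
    (u1 : (1 - β) * hx g + β * ((i : ℕ) : ℝ) = ((k : ℕ) : ℝ) + t) (u2 : (1 - β) * hy g = 0) :
    β = 1 ∧ (i = k ∨ i = l) := by
  have h6 : 1 - β = 0 := (mul_eq_zero.mp u2).resolve_right (hy_ne g)
  have h7 : β = 1 := by linarith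
  refine ⟨h7, ?_⟩
  rw [h7] at u1
  simp only [sub_self, zero_mul, one_mul, zero_add] at u1
  have k1 : ((k : ℕ) : ℝ) ≤ (i : ℕ) := by linarith
  have k2 : ((i : ℕ) : ℝ) ≤ (k : ℕ) + 1 := by linarith
  have k1' : (k : ℕ) ≤ i := by exact_mod_cast k1
  have k2' : (i : ℕ) ≤ k + 1 := by exact_mod_cast k2
  rcases Nat.lt_or_ge (k : ℕ) i with h | h
  · right
    exact Fin.ext (by omega)
  · left
    exact Fin.ext (by omega)

/-- a hub edge and the upper edge -/
theorem cross_hu {g : Option Bool} {β : ℝ} (b0 : 0 ≤ β) (b1 : β ≤ 1) (u2 : (1 - β) * hy g = 1) :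
    β = 0 ∧ (g = none ∨ g = some true) := by
  rcases g with _ | _ | _
  · simp only [hy] at u2
    exact ⟨by linarith, Or.inl rfl⟩
  · simp only [hy] at u2
    exfalso
    linarith
  · simp only [hy] at u2
    exact ⟨by linarith, Or.inr rfl⟩

theorem cross3 {m : ℕ} (hN : ∀ i, A none i → i ≤ m) (hT : ∀ i, A (some true) i → m ≤ i)
    {a b c d : Option Bool ⊕ Fin (M + 1)} (h : (TG M A).Adj a b)
    (h' : (TG M A).Adj c d) (hne : s(a, b) ≠ s(c, d)) {p : ℝ × ℝ}
    (hp : p ∈ segment ℝ (dr3 M a) (dr3 M b)) (hp' : p ∈ segment ℝ (dr3 M c) (dr3 M d)) :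
    ∃ v, (v = a ∨ v = b) ∧ (v = c ∨ v = d) ∧ p = dr3 M v := by
  rcases seg_cases3 h hp with ⟨g, i, β, hg, b0, b1, e1, e2⟩ | ⟨i, j, t, hij, t0, t1, e1, e2⟩ |
      ⟨t, t0, t1, e1, e2⟩ <;>
    rcases seg_cases3 h' hp' with ⟨g', i', β', hg', b0', b1', e1', e2'⟩ |
      ⟨i', j', t', hij', t0', t1', e1', e2'⟩ | ⟨t', t0', t1', e1', e2'⟩
  · rw [e1, Prod.mk.injEq] at e1'
    obtain ⟨u1, u2⟩ := e1'
    rcases cross_hh hN hT hg hg' b0 b1 b0' b1' u1 u2 with ⟨k1, k2⟩ | ⟨k1, k2, k3⟩ | ⟨k1, k2, k3⟩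
    · exfalso
      apply hne
      rw [e2, e2', k1, k2]
    · refine ⟨Sum.inl g, end_of_eq e2 (Or.inl rfl), end_of_eq e2' (Or.inl (by rw [k1])), ?_⟩
      rw [e1, k2]
      simp [dr3]
    · refine ⟨Sum.inr i, end_of_eq e2 (Or.inr rfl), end_of_eq e2' (Or.inr (by rw [k1])), ?_⟩
      rw [e1, k2]
      simp [dr3]
  · rw [e1, Prod.mk.injEq] at e1'
    obtain ⟨k1, k2⟩ := cross_hp hij' t0' t1' e1'.1 e1'.2
    refine ⟨Sum.inr i, end_of_eq e2 (Or.inr rfl), end_of_eq e2' ?_, ?_⟩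
    · rcases k2 with k | k
      · left; rw [k]
      · right; rw [k]
    · rw [e1, k1]
      simp [dr3]
  · rw [e1, Prod.mk.injEq] at e1'
    obtain ⟨k1, k2⟩ := cross_hu b0 b1 e1'.2
    refine ⟨Sum.inl g, end_of_eq e2 (Or.inl rfl), end_of_eq e2' ?_, ?_⟩
    · rcases k2 with k | k
      · left; rw [k]
      · right; rw [k]
    · rw [e1, k1]
      simp [dr3]
  · have e3 := e1'
    rw [e1, Prod.mk.injEq] at e1'
    obtain ⟨k1, k2⟩ := cross_hp hij t0 t1 e1'.1.symm e1'.2.symm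
    refine ⟨Sum.inr i', end_of_eq e2 ?_, end_of_eq e2' (Or.inr rfl), ?_⟩
    · rcases k2 with k | k
      · left; rw [k]
      · right; rw [k]
    · rw [e3, k1]
      simp [dr3]
  · rw [e1, Prod.mk.injEq] at e1'
    obtain ⟨u1, -⟩ := e1'
    rcases lt_trichotomy (i : ℕ) i' with k | k | k
    · have k' : ((i : ℕ) : ℝ) + 1 ≤ (i' : ℕ) := by exact_mod_cast k
      have ht' : t' = 0 := by linarith
      have hij2 : i' = j := by
        have : ((i' : ℕ) : ℝ) = (i : ℕ) + 1 := by linarith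
        have h3 : (i' : ℕ) = i + 1 := by exact_mod_cast this
        exact Fin.ext (by omega)
      refine ⟨Sum.inr i', end_of_eq e2 (Or.inr (by rw [hij2])), end_of_eq e2' (Or.inl rfl), ?_⟩
      rw [e1, u1, ht']
      simp [dr3]
    · exfalso
      have h4 : i = i' := Fin.ext k
      subst h4
      apply hne
      rw [e2, e2']
      have : j = j' := Fin.ext (by omega)
      rw [this]
    · have k' : ((i' : ℕ) : ℝ) + 1 ≤ (i : ℕ) := by exact_mod_cast k
      have ht : t = 0 := by linarith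
      have hij2 : i = j' := by
        have : ((i : ℕ) : ℝ) = (i' : ℕ) + 1 := by linarith
        have h3 : (i : ℕ) = i' + 1 := by exact_mod_cast this
        exact Fin.ext (by omega)
      refine ⟨Sum.inr i, end_of_eq e2 (Or.inl rfl), end_of_eq e2' (Or.inr (by rw [hij2])), ?_⟩
      rw [e1, ht]
      simp [dr3]
  · rw [e1, Prod.mk.injEq] at e1'
    exact absurd e1'.2 (by norm_num)
  · have e3 := e1'
    rw [e1, Prod.mk.injEq] at e1'
    obtain ⟨k1, k2⟩ := cross_hu b0' b1' e1'.2.symm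
    refine ⟨Sum.inl g', end_of_eq e2 ?_, end_of_eq e2' (Or.inl rfl), ?_⟩
    · rcases k2 with k | k
      · left; rw [k]
      · right; rw [k]
    · rw [e3, k1]
      simp [dr3]
  · rw [e1, Prod.mk.injEq] at e1'
    exact absurd e1'.2 (by norm_num)
  · exfalso
    apply hne
    rw [e2, e2']

theorem straightPlanar3 {m : ℕ} (hm : m < M + 1) (hN : ∀ i, A none i → i ≤ m)
    (hT : ∀ i, A (some true) i → m ≤ i) (hA : ∀ i, ∃ h, A h i) (hm' : ∀ h, A h m) :
    StraightPlanar (TG M A) := by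
  refine ⟨dr3 M, dr3_inj M, ?_, fun a b c d h h' hne p hp hp' => cross3 hN hT h h' hne hp hp'⟩
  intro v a b hab hv
  obtain ⟨w, hw⟩ : ∃ w, (TG M A).Adj v w := by
    rcases v with h | i
    · exact ⟨Sum.inr ⟨m, hm⟩, hm' h⟩
    · obtain ⟨h, hh⟩ := hA i
      exact ⟨Sum.inl h, hh⟩
  by_cases he : s(v, w) = s(a, b)
  · rw [Sym2.eq_iff] at he
    rcases he with ⟨rfl, -⟩ | ⟨rfl, -⟩
    · exact Or.inl rfl
    · exact Or.inr rfl
  · obtain ⟨u, hu1, hu2, hu3⟩ := cross3 hN hT hw hab he (left_mem_segment ℝ _ _) hv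
    have := dr3_inj M hu3
    subst this
    exact hu2

end Pool.Agent.Y281.CR
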