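import Pool.Agent.Y281.CR.Count3
import Pool.Agent.Y281.CR.Plan3

set_option autoImplicit false

namespace Pool.Agent.Y281.CR
open Classical

/-- the attachment pattern with three hubs -/
def pat3 (a k : ℕ) : Option Bool → ℕ → Prop
  | none, i => i ≤ a
  | some true, i => a ≤ i ∧ pat a k true i
  | some false, i => pat a k false i

/-- the colours of the hubs -/
def ext {n : ℕ} (x : Fin n) (c : Bool → Fin n) : Option Bool → Fin n
  | none => x
  | some h => c h

theorem sum_three {n : ℕ} {a b c : Fin n} (hab : a ≠ b) (hac : a ≠ c) (hbc : b ≠ c)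
    (f : Fin n → ℂ) (G : ℂ) (hf : ∀ x, x ≠ a → x ≠ b → x ≠ c → f x = G) :
    ∑ x, f x = ((n : ℂ) - 3) * G + (f a + f b + f c) := by
  have h1 : ∑ x, f x = ∑ x, (G + ((if x = a then f a - G else 0) +
      (if x = b then f b - G else 0) + (if x = c then f c - G else 0))) := by
    refine Finset.sum_congr rfl fun x _ => ?_
    by_cases ha : x = a
    · subst ha
      rw [if_pos rfl, if_neg hab, if_neg hac]
      ring
    · by_cases hb : x = b
      · subst hb
        rw [if_neg ha, if_pos rfl, if_neg hbc]
        ring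
      · by_cases hc : x = c
        · subst hc
          rw [if_neg ha, if_neg hb, if_pos rfl]
          ring
        · rw [if_neg ha, if_neg hb, if_neg hc, hf x ha hb hc]
          ring
  rw [h1, Finset.sum_add_distrib, Finset.sum_add_distrib, Finset.sum_add_distrib]
  simp
  ring

theorem sum_one {n : ℕ} (a : Fin n) (f : Fin n → ℂ) (G : ℂ) (hf : ∀ x, x ≠ a → f x = G) :
    ∑ x, f x = ((n : ℂ) - 1) * G + f a := by
  have h1 : ∑ x, f x = ∑ x, (G + (if x = a then f a - G else 0)) := by
    refine Finset.sum_congr rfl fun x _ => ?_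
    by_cases ha : x = a
    · subst ha
      rw [if_pos rfl]
      ring
    · rw [if_neg ha, hf x ha]
      ring
  rw [h1, Finset.sum_add_distrib]
  simp
  ring

/-- the growth of the left part -/
noncomputable def lw {n : ℕ} (x s : Fin n) : ℂ := if x = s then (n : ℂ) - 2 else (n : ℂ) - 3

/-- the left part -/
theorem left {n a k : ℕ} (cN : Fin n) (c : Bool → Fin n) (i : ℕ) (hi : i < a) :
    (∀ x, W3 i (pat3 a k) (ext cN c) x =
      if x = cN ∨ x = c false then 0 else (lw cN (c false)) ^ i) ∧
    ∑ x, W3 i (pat3 a k) (ext cN c) x = (lw cN (c false) + 1) * (lw cN (c false)) ^ i := by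
  have hok : ∀ i, i < a → ∀ x, ok3 (pat3 a k) (ext cN c) i x =
      if x = cN ∨ x = c false then 0 else 1 := by
    intro i hi x
    unfold ok3
    by_cases hx : x = cN ∨ x = c false
    · rw [if_pos hx, if_neg]
      push Not
      rcases hx with hx | hx
      · exact ⟨none, hi.le, hx⟩
      · exact ⟨some false, pat_lt _ hi.le, hx⟩
    · rw [if_neg hx, if_pos]
      rw [not_or] at hx
      rintro (_ | _ | _) hh
      · exact hx.1
      · exact hx.2
      · exact absurd hh.1 (by omega)
  have hsum : ∀ i, (∀ x, W3 i (pat3 a k) (ext cN c) x =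
      if x = cN ∨ x = c false then 0 else (lw cN (c false)) ^ i) →
      ∑ x, W3 i (pat3 a k) (ext cN c) x = (lw cN (c false) + 1) * (lw cN (c false)) ^ i := by
    intro i h
    by_cases hc : cN = c false
    · rw [sum_one cN _ ((lw cN (c false)) ^ i) (fun x hx => by
        rw [h x, if_neg]
        rw [← hc]
        simpa using hx), h cN, if_pos (Or.inl rfl)]
      unfold lw
      rw [if_pos hc]
      ring
    · rw [sum_two hc _ ((lw cN (c false)) ^ i) (fun x hx hx' => by
        rw [h x, if_neg]
        simp [hx, hx']), h cN, if_pos (Or.inl rfl), h (c false), if_pos (Or.inr rfl)]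
      unfold lw
      rw [if_neg hc]
      ring
  induction i with
  | zero =>
    have h1 : ∀ x, W3 0 (pat3 a k) (ext cN c) x =
        if x = cN ∨ x = c false then 0 else (lw cN (c false)) ^ 0 := by
      intro x
      rw [W3_zero, hok 0 hi, pow_zero]
    exact ⟨h1, hsum 0 h1⟩
  | succ i ih =>
    obtain ⟨i1, i2⟩ := ih (by omega)
    have h1 : ∀ x, W3 (i + 1) (pat3 a k) (ext cN c) x =
        if x = cN ∨ x = c false then 0 else (lw cN (c false)) ^ (i + 1) := by
      intro x
      rw [W3_succ, i2, i1, hok (i + 1) hi]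
      split_ifs
      · ring
      · ring
    exact ⟨h1, hsum (i + 1) h1⟩

/-- at the junction -/
theorem junction {n a k : ℕ} (ha : 1 ≤ a) (cN : Fin n) (c : Bool → Fin n) (x : Fin n) :
    W3 a (pat3 a k) (ext cN c) x =
      if x = cN ∨ x = c false ∨ x = c true then 0 else (lw cN (c false)) ^ a := by
  obtain ⟨i, rfl⟩ : ∃ i, a = i + 1 := ⟨a - 1, by omega⟩
  obtain ⟨i1, i2⟩ := left (n := n) (a := i + 1) (k := k) cN c i (by omega)
  rw [W3_succ, i2, i1]
  unfold ok3
  by_cases hx : x = cN ∨ x = c false ∨ x = c true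
  · rw [if_pos hx, if_neg, zero_mul]
    push Not
    rcases hx with hx | hx | hx
    · exact ⟨none, le_rfl, hx⟩
    · exact ⟨some false, pat_lt _ le_rfl, hx⟩
    · exact ⟨some true, ⟨le_rfl, pat_lt _ le_rfl⟩, hx⟩
  · rw [if_neg hx, if_pos]
    · rw [not_or, not_or] at hx
      rw [if_neg (by rw [not_or]; exact ⟨hx.1, hx.2.1⟩)]
      ring
    · rw [not_or, not_or] at hx
      rintro (_ | _ | _) _
      · exact hx.1
      · exact hx.2.1
      · exact hx.2.2

/-- the aggregated counts of the right part -/
noncomputable def UU {n : ℕ} (a k : ℕ) (c : Bool → Fin n) (r : ℕ) (x : Fin n) : ℂ :=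
  ∑ cN : Fin n, if cN = c true then 0 else W3 (a + r) (pat3 a k) (ext cN c) x

theorem pat_shift (a k r : ℕ) (h : Bool) : pat a k h (a + r) ↔ pat 0 k h r := by
  unfold pat
  rw [Nat.add_sub_cancel_left, Nat.sub_zero]

theorem UU_succ {n : ℕ} (a k : ℕ) (c : Bool → Fin n) (r : ℕ) (x : Fin n) :
    UU a k c (r + 1) x = (if ∀ h, pat 0 k h (r + 1) → x ≠ c h then 1 else 0) *
      (∑ y, UU a k c r y - UU a k c r x) := by
  unfold UU
  rw [Finset.sum_comm, ← Finset.sum_sub_distrib, Finset.mul_sum]
  refine Finset.sum_congr rfl fun cN _ => ?_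
  by_cases hc : cN = c true
  · simp [hc]
  · simp only [if_neg hc]
    rw [← add_assoc, W3_succ]
    congr 1
    unfold ok3
    have : (∀ h, pat3 a k h (a + r + 1) → x ≠ ext cN c h) ↔
        ∀ h, pat 0 k h (r + 1) → x ≠ c h := by
      constructor
      · intro H h hh
        rw [← pat_shift a] at hh
        cases h
        · exact H (some false) hh
        · exact H (some true) ⟨by omega, hh⟩
      · rintro H (_ | _ | _) hh
        · have : a + r + 1 ≤ a := hh
          omega
        · exact H false ((pat_shift a k (r + 1) false).mp hh)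
        · exact H true ((pat_shift a k (r + 1) true).mp hh.2)
    simp only [this]

/-- the start of the right part, different colours -/
theorem UU_zero_diff {n a k : ℕ} (ha : 1 ≤ a) {c : Bool → Fin n} (hc : c true ≠ c false)
    (x : Fin n) : UU a k c 0 x = if ∀ h, x ≠ c h then
      ((n : ℂ) - 2) ^ a + ((n : ℂ) - 3) ^ (a + 1) else 0 := by
  unfold UU
  simp only [add_zero, junction ha]
  split_ifs with hx
  · have h1 := hx true
    have h2 := hx false
    rw [sum_three (a := c true) (b := x) (c := c false) h1.symm hc h2 _ (((n : ℂ) - 3) ^ a)]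
    · rw [if_pos rfl]
      simp only [if_neg h1, if_neg hc.symm, true_or, if_true]
      rw [if_neg (by simp [h1, h2])]
      unfold lw
      rw [if_pos rfl]
      ring
    · intro y y1 y2 y3
      rw [if_neg y1, if_neg]
      · unfold lw
        rw [if_neg y3]
      · simp [Ne.symm y2, h1, h2]
  · push Not at hx
    obtain ⟨h, hh⟩ := hx
    apply Finset.sum_eq_zero
    intro y _
    split_ifs with h3 h4
    · rfl
    · rfl
    · exfalso
      apply h4
      cases h
      · exact Or.inr (Or.inl hh)
      · exact Or.inr (Or.inr hh)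

/-- the start of the right part, equal colours -/
theorem UU_zero_same {n a k : ℕ} (ha : 1 ≤ a) {c : Bool → Fin n} (hc : c true = c false)
    (x : Fin n) : UU a k c 0 x = if x = c true then 0 else
      ((n : ℂ) - 2) * ((n : ℂ) - 3) ^ a := by
  unfold UU
  simp only [add_zero, junction ha]
  split_ifs with hx
  · apply Finset.sum_eq_zero
    intro y _
    split_ifs with h3 h4
    · rfl
    · rfl
    · exfalso
      exact h4 (Or.inr (Or.inr hx))
  · have hx2 : x ≠ c false := by rw [← hc]; exact hx
    rw [sum_two (a := c true) (b := x) (Ne.symm hx) _ (((n : ℂ) - 3) ^ a)]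
    · rw [if_pos rfl]
      simp only [if_neg hx, true_or, if_true]
      ring
    · intro y y1 y2
      rw [if_neg y1, if_neg]
      · unfold lw
        rw [if_neg (by rw [← hc]; exact y1)]
      · simp [Ne.symm y2, hx, hx2]

/-- the number of colourings -/
theorem count3 {n a k b : ℕ} (ha : 1 ≤ a) (hk : 1 ≤ k) :
    (Nat.card ((TG (a + k * b) (pat3 a k)).Coloring (Fin n)) : ℂ) =
      (n : ℂ) * ((n : ℂ) - 1) * (((n : ℂ) - 2) *
        ((((n : ℂ) - 2) ^ a + ((n : ℂ) - 3) ^ (a + 1)) * (bet ((n : ℂ) - 2) k).1 ^ b +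
          ((n : ℂ) - 3) ^ a * ((n : ℂ) - 2) ^ (k * b))) := by
  rw [card_col3]
  -- the sum over the colours of the hubs
  let e : (Option Bool → Fin n) ≃ Fin n × (Bool → Fin n) :=
    { toFun := fun c => (c none, fun h => c (some h))
      invFun := fun p => ext p.1 p.2
      left_inv := by
        intro c
        funext o
        rcases o with _ | h <;> rfl
      right_inv := by
        rintro ⟨x, c⟩
        rfl }
  rw [← e.symm.sum_comp, Fintype.sum_prod_type, Finset.sum_comm]
  have h1 : ∀ c : Bool → Fin n, (∑ x : Fin n, if (e.symm (x, c)) none = (e.symm (x, c)) (some true)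
      then 0 else tot3 (a + k * b) (pat3 a k) (e.symm (x, c))) = ∑ y, UU a k c (k * b) y := by
    intro c
    unfold UU
    rw [Finset.sum_comm]
    refine Finset.sum_congr rfl fun x _ => ?_
    have e1 : (e.symm (x, c)) = ext x c := rfl
    rw [e1]
    have e2 : ext x c none = x := rfl
    have e3 : ext x c (some true) = c true := rfl
    rw [e2, e3]
    split_ifs with h
    · simp
    · rw [tot3_eq_sum]
  rw [Finset.sum_congr rfl fun c _ => h1 c]
  have hall : ∀ h, pat 0 k h (k * b) := by
    rw [pat_all]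
    simp
  have hGE := GE_pat ((n : ℂ) - 2) (a := 0) hk b
  rw [zero_add] at hGE
  have h2 : ∀ c : Bool → Fin n, ∑ y, UU a k c (k * b) y = if c true = c false then
      ((n : ℂ) - 1) * ((((n : ℂ) - 2) * ((n : ℂ) - 3) ^ a) * ((n : ℂ) - 2) ^ (k * b)) else
      ((n : ℂ) - 2) * ((((n : ℂ) - 2) ^ a + ((n : ℂ) - 3) ^ (a + 1)) *
        (bet ((n : ℂ) - 2) k).1 ^ b) := by
    intro c
    split_ifs with hc
    · refine (U_same (x0 := c true) (U := UU a k c) (fun x => UU_zero_same ha hc x) ?_ (k * b)).2
      intro i x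
      rw [UU_succ]
      congr 1
      by_cases hx : x = c true
      · rw [if_pos hx, if_neg]
        push Not
        rcases pat_or 0 k (i + 1) with h | h
        · exact ⟨true, h, hx⟩
        · exact ⟨false, h, hx.trans hc⟩
      · rw [if_neg hx, if_pos]
        intro h _
        cases h
        · rw [← hc]; exact hx
        · exact hx
    · have := (U_diff (B := pat 0 k) (pat_or 0 k) (pat_next hk) (pat_zero 0 k) hc
        (U := UU a k c) (fun x => UU_zero_diff ha hc x) (fun i x => UU_succ a k c i x) (k * b)).2.2.2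
      rw [this, hGE]
      ring
  rw [Finset.sum_congr rfl fun c _ => h2 c]
  have h3 : ∀ u v : ℂ, ∑ c : Bool → Fin n, (if c true = c false then u else v) =
      n * u + (n * (n - 1)) * v := by
    intro u v
    rw [← (Equiv.boolArrowEquivProd (Fin n)).symm.sum_comp, Fintype.sum_prod_type]
    have h3 : ∀ x : Fin n, ∑ y : Fin n, (if ((Equiv.boolArrowEquivProd (Fin n)).symm (x, y)) true =
        ((Equiv.boolArrowEquivProd (Fin n)).symm (x, y)) false then u else v) =
        u + ((n : ℂ) - 1) * v := by
      intro x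
      have h4 : ∀ y : Fin n, (if ((Equiv.boolArrowEquivProd (Fin n)).symm (x, y)) true =
        ((Equiv.boolArrowEquivProd (Fin n)).symm (x, y)) false then u else v) =
          v + if y = x then u - v else 0 := by
        intro y
        have e1 : ((Equiv.boolArrowEquivProd (Fin n)).symm (x, y)) true = y := rfl
        have e2 : ((Equiv.boolArrowEquivProd (Fin n)).symm (x, y)) false = x := rfl
        rw [e1, e2]
        split_ifs <;> ring
      rw [Finset.sum_congr rfl fun y _ => h4 y, Finset.sum_add_distrib]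
      simp
      ring
    rw [Finset.sum_congr rfl fun x _ => h3 x]
    simp
    ring
  rw [h3]
  ring

/-- the roots of the chromatic polynomials, three hubs -/
theorem root_mem3 {a k b : ℕ} (ha : 1 ≤ a) (hk : 1 ≤ k) (hb : 1 ≤ b) {z : ℂ}
    (h : (z ^ a + (z - 1) ^ (a + 1)) * (bet z k).1 ^ b + (z - 1) ^ a * z ^ (k * b) = 0) :
    z + 2 ∈ ChromRoots3P := by
  have hkb : 1 ≤ k * b := Nat.mul_pos hk hb
  let X : Polynomial ℂ := Polynomial.X
  let Z : Polynomial ℂ := Polynomial.X - 2
  let p : Polynomial ℂ := X * (X - 1) * (Z * ((Z ^ a + (Z - 1) ^ (a + 1)) * (bet Z k).1 ^ b +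
    (Z - 1) ^ a * Z ^ (k * b)))
  have hev : ∀ q : ℂ, p.eval q = q * (q - 1) * ((q - 2) *
      (((q - 2) ^ a + (q - 2 - 1) ^ (a + 1)) * (bet (q - 2) k).1 ^ b +
        (q - 2 - 1) ^ a * (q - 2) ^ (k * b))) := by
    intro q
    have h1 := bet_map (Polynomial.evalRingHom q) Z k
    have h2 : Polynomial.evalRingHom q Z = q - 2 := by simp [Z]
    rw [h2] at h1
    rw [h1]
    simp [p, X, Z]
  have hA : ∀ i, ∃ h, pat3 a k h i := by
    intro i
    rcases Nat.lt_or_ge i a with hi | hi
    · exact ⟨none, hi.le⟩
    · rcases pat_or a k i with h | h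
      · exact ⟨some true, hi, h⟩
      · exact ⟨some false, h⟩
  have hMall : ∀ h, pat a k h (a + k * b) := by
    rw [pat_all, Nat.add_sub_cancel_left, Nat.mul_mod_right]
  refine ⟨Option Bool ⊕ Fin (a + k * b + 1), inferInstance, TG (a + k * b) (pat3 a k), p,
    ?_, ?_, ?_, ?_⟩
  · exact threeConnected3 (a := a) ha (by omega) hA (pat_zero _ _ _) (pat_lt _ le_rfl) (hMall _)
      (Nat.zero_le _) le_rfl ⟨le_rfl, pat_lt _ le_rfl⟩ ⟨by omega, hMall _⟩
  · refine straightPlanar3 (m := a) (by omega) (fun i h => h) (fun i h => h.1) hA ?_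
    rintro (_ | _ | _)
    · exact le_rfl
    · exact pat_lt _ le_rfl
    · exact ⟨le_rfl, pat_lt _ le_rfl⟩
  · intro n
    rw [count3 ha hk, hev]
    have e : (n : ℂ) - 2 - 1 = n - 3 := by ring
    rw [e]
  · rw [hev]
    have e : z + 2 - 2 = z := by ring
    rw [e, h, mul_zero, mul_zero]

end Pool.Agent.Y281.CR
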