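import Pool.Agent.Y281.CR.Fin
import Pool.Agent.Y281.CR.Pat3
import Pool.Agent.Y281.CR.Ana3

set_option autoImplicit false

namespace Pool.Agent.Y281.CR
open Filter Topology Metric

/-- the complementary case on the right: two merged classes compete -/
theorem gen3 {l z : ℂ} (hl : 1 < ‖l‖) (hz : z = l - l⁻¹) (h1 : 1 / 2 < z.re) (hlz : ‖l‖ < ‖z‖)
    (hz1 : z ≠ 1) : z + 2 ∈ closure ChromRoots3P := by
  have hz0 : z ≠ 0 := by
    intro h
    rw [h, norm_zero] at hlz
    linarith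
  obtain ⟨c1, c2, c3⟩ := lim hl hz
  have hl0 : l ≠ 0 := by
    intro h
    rw [h, norm_zero] at hl
    linarith
  have hzp : 0 < ‖z‖ := norm_pos_iff.mpr hz0
  have t1 : Tendsto (fun k : ℕ => ‖(bet z k).1 / z ^ k‖) atTop (𝓝 0) := by
    have e : ∀ k : ℕ, ‖(bet z k).1 / z ^ k‖ = ‖(bet z k).1 / l ^ k‖ * (‖l‖ / ‖z‖) ^ k := by
      intro k
      have : (bet z k).1 / z ^ k = (bet z k).1 / l ^ k * (l / z) ^ k := by
        rw [div_pow]
        have a := pow_ne_zero k hl0
        have b := pow_ne_zero k hz0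
        field_simp
      rw [this, norm_mul, norm_pow, norm_div l z]
    simp only [e]
    have := c3.norm.mul (tendsto_pow_atTop_nhds_zero_of_lt_one (r := ‖l‖ / ‖z‖) (by positivity)
      ((div_lt_one hzp).mpr hlz))
    simpa using this
  have t2 : ∀ᶠ k : ℕ in atTop, (bet z k).1 / l ^ k ≠ 0 :=
    c3.eventually_ne (div_ne_zero c2 c1)
  obtain ⟨k, hk1, hk2, hk3⟩ := ((t1.eventually_lt_const zero_lt_one).and
    (t2.and (eventually_ge_atTop 2))).exists
  have hB : (bet z k).1 ≠ 0 := by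
    intro h
    rw [h, zero_div] at hk2
    exact hk2 rfl
  have hB' : (BP k).eval z ≠ 0 := by rw [BP_eval]; exact hB
  have hf0 : (BP k).eval z / z ^ k ≠ 0 := div_ne_zero hB' (pow_ne_zero _ hz0)
  have hfan : AnalyticAt ℂ (fun z => (BP k).eval z / z ^ k) z :=
    (AnalyticOnNhd.eval_polynomial (BP k) z (Set.mem_univ _)).div (analyticAt_id.pow k)
      (pow_ne_zero _ hz0)
  have g1 := (norm_div_one hz0).1 h1
  have g0 : 0 < ‖(bet z k).1 / z ^ k‖ := norm_pos_iff.mpr (div_ne_zero hB (pow_ne_zero _ hz0))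
  rw [Metric.mem_closure_iff]
  intro ε hε
  obtain ⟨y, y1, y2, y3, a, b, ha, hb, y4⟩ := dense_roots3 (R1 := fun z => (z - 1) / z)
    (R2 := fun z => ((BP k).eval z / z ^ k)⁻¹) (D := fun z => z - 1) (z0 := z)
    ((analyticAt_id.sub analyticAt_const).div analyticAt_id hz0) (hfan.inv hf0)
    (analyticAt_id.sub analyticAt_const)
    (div_ne_zero (sub_ne_zero.mpr hz1) hz0) (inv_ne_zero hf0) g1
    (by
      rw [norm_inv, BP_eval]
      exact (one_lt_inv₀ g0).mpr hk1)
    (by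
      intro θ _ hcon
      apply nonconst hk3 hz0 hz1 hB' (-θ)
      filter_upwards [hcon, hfan.eventually_analyticAt,
        hfan.continuousAt.eventually_ne hf0] with w hw hw1 hw2
      have d1 : deriv (fun z => ((BP k).eval z / z ^ k)⁻¹) w =
          -deriv (fun z => (BP k).eval z / z ^ k) w / ((BP k).eval w / w ^ k) ^ 2 :=
        deriv_fun_inv'' hw1.differentiableAt hw2
      rw [d1] at hw
      have e : ∀ d f : ℂ, f ≠ 0 → -d / f ^ 2 / f⁻¹ = -(d / f) := by
        intro d f hf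
        field_simp
      rw [e _ _ hw2] at hw
      push_cast
      linear_combination hw) hε
  have hy0 : y ≠ 0 := by
    intro h
    rw [h] at y2
    simp at y2
  have hyB : (bet y k).1 ≠ 0 := by
    intro h
    rw [BP_eval, h] at y3
    simp at y3
  refine ⟨y + 2, root_mem3 (a := a) (k := k) (b := b) ha (by omega) hb ?_, ?_⟩
  · rw [BP_eval, inv_div, div_pow, div_pow, ← pow_mul] at y4
    have hya : y ^ a ≠ 0 := pow_ne_zero _ hy0
    have hyb : (bet y k).1 ^ b ≠ 0 := pow_ne_zero _ hyB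
    have h5 : (y - 1) ^ a * y ^ (k * b) =
        -(y ^ a + (y - 1) * (y - 1) ^ a) * (bet y k).1 ^ b := by
      field_simp at y4
      linear_combination y4
    rw [h5, pow_succ]
    ring
  · rw [dist_eq_norm]
    have : z + 2 - (y + 2) = -(y - z) := by ring
    rw [this, norm_neg]
    exact y1

/-- the comparison of `|l|` and `|z|` in terms of `l ^ 2` -/
theorem sq_id {l z : ℂ} (hl0 : l ≠ 0) (hz : z = l - l⁻¹) :
    ‖z‖ ^ 2 * ‖l‖ ^ 2 = (‖l‖ ^ 2) ^ 2 - 2 * (l ^ 2).re + 1 := by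
  have h3 : ‖z‖ * ‖l‖ = ‖l ^ 2 - 1‖ := by
    rw [← norm_mul, hz]
    congr 1
    field_simp
  have hsq : ‖l ^ 2 - 1‖ ^ 2 = ‖l ^ 2‖ ^ 2 - 2 * (l ^ 2).re + 1 := by
    rw [← Complex.normSq_eq_norm_sq, ← Complex.normSq_eq_norm_sq, Complex.normSq_apply,
      Complex.normSq_apply]
    simp only [Complex.sub_re, Complex.one_re, Complex.sub_im, Complex.one_im]
    ring
  rw [← mul_pow, h3, hsq, norm_pow]

/-- all points to the right of `5/2`, except `3` -/
theorem right {z : ℂ} (h1 : 1 / 2 < z.re) (hz1 : z ≠ 1) : z + 2 ∈ closure ChromRoots3P := by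
  obtain ⟨l, hl, hz⟩ := exists_l (z := z) (by linarith)
  have hl0 : l ≠ 0 := by
    intro h
    rw [h, norm_zero] at hl
    linarith
  rcases lt_trichotomy ‖z‖ ‖l‖ with h | h | h
  · exact gen1 hl hz h1 h hz1
  · -- the exceptional curve
    have h2 := sq_id hl0 hz
    rw [h] at h2
    have hre : (l ^ 2).re = 1 / 2 := by nlinarith
    rw [← closure_closure]
    have hcont : Tendsto (fun t : ℝ => ((1 + t : ℝ) : ℂ) * l - (((1 + t : ℝ) : ℂ) * l)⁻¹)
        (𝓝[>] 0) (𝓝 z) := by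
      have hc : ContinuousAt (fun t : ℝ => ((1 + t : ℝ) : ℂ) * l - (((1 + t : ℝ) : ℂ) * l)⁻¹) 0 := by
        have hc1 : ContinuousAt (fun t : ℝ => ((1 + t : ℝ) : ℂ) * l) 0 := by fun_prop
        exact hc1.sub (hc1.inv₀ (by simpa using hl0))
      have := hc.tendsto
      simp only [add_zero, Complex.ofReal_one, one_mul] at this
      rw [← hz] at this
      exact this.mono_left nhdsWithin_le_nhds
    have e1 : ∀ᶠ t : ℝ in 𝓝[>] 0,
        1 / 2 < (((1 + t : ℝ) : ℂ) * l - (((1 + t : ℝ) : ℂ) * l)⁻¹).re :=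
      ((Complex.continuous_re.tendsto z).comp hcont).eventually_const_lt h1
    have e2 : ∀ᶠ t : ℝ in 𝓝[>] 0,
        ((1 + t : ℝ) : ℂ) * l - (((1 + t : ℝ) : ℂ) * l)⁻¹ ≠ 1 := hcont.eventually_ne hz1
    refine mem_closure_of_tendsto (hcont.add_const 2) ?_
    filter_upwards [e1, e2, self_mem_nhdsWithin] with t ht1 ht2 ht3
    have ht0 : 0 < t := ht3
    have hn : ‖((1 + t : ℝ) : ℂ) * l‖ = (1 + t) * ‖l‖ := by
      rw [norm_mul, Complex.norm_real, Real.norm_of_nonneg (by linarith)]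
    have hlt : 1 < ‖((1 + t : ℝ) : ℂ) * l‖ := by
      rw [hn]
      nlinarith
    have hlt0 : ((1 + t : ℝ) : ℂ) * l ≠ 0 := by
      intro h0
      rw [h0, norm_zero] at hlt
      linarith
    refine gen1 hlt rfl ht1 ?_ ht2
    have h3 := sq_id hlt0 rfl
    have h4 : ((((1 + t : ℝ) : ℂ) * l) ^ 2).re = (1 + t) ^ 2 * (1 / 2) := by
      rw [mul_pow, ← Complex.ofReal_pow, Complex.re_ofReal_mul, hre]
    rw [h4] at h3
    have h5 : 0 < ‖((1 + t : ℝ) : ℂ) * l‖ ^ 2 := by positivity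
    have h6 : ‖((1 + t : ℝ) : ℂ) * l - (((1 + t : ℝ) : ℂ) * l)⁻¹‖ ^ 2 <
        ‖((1 + t : ℝ) : ℂ) * l‖ ^ 2 := by
      by_contra hcon
      push Not at hcon
      nlinarith [mul_le_mul_of_nonneg_right hcon h5.le]
    exact lt_of_pow_lt_pow_left₀ 2 (norm_nonneg _) h6
  · exact gen3 hl hz h1 h hz1

/-- **the half plane** -/
theorem halfPlane (q : ℂ) (hq : 5 / 2 ≤ q.re) : q ∈ closure ChromRoots3P := by
  rw [← closure_closure, Metric.mem_closure_iff]
  intro ε hε
  have key : ∀ t : ℝ, 0 < t → q + t ≠ 3 → q + t ∈ closure ChromRoots3P := by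
    intro t ht hne
    have := right (z := q + t - 2) (by simp; linarith) (by
      intro h
      apply hne
      linear_combination h)
    have e : q + t - 2 + 2 = q + t := by ring
    rwa [e] at this
  have hd : ∀ t : ℝ, 0 < t → t < ε → dist q (q + t) < ε := by
    intro t ht hte
    rw [dist_eq_norm]
    have : q - (q + t) = -(t : ℂ) := by ring
    rw [this, norm_neg, Complex.norm_real, Real.norm_of_nonneg ht.le]
    exact hte
  by_cases h3 : q + ((ε / 2 : ℝ) : ℂ) = 3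
  · refine ⟨q + ((ε / 4 : ℝ) : ℂ), key _ (by positivity) ?_, hd _ (by positivity) (by linarith)⟩
    intro h4
    have : ((ε / 2 : ℝ) : ℂ) = ((ε / 4 : ℝ) : ℂ) := by linear_combination h3 - h4
    have h5 : ε / 2 = ε / 4 := by exact_mod_cast this
    linarith
  · exact ⟨q + ((ε / 2 : ℝ) : ℂ), key _ (by positivity) h3, hd _ (by positivity) (by linarith)⟩

end Pool.Agent.Y281.CR
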