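import Pool.Agent.Y281.CR.Defs

set_option autoImplicit false

namespace Pool.Agent.Y281.CR

variable {M : ℕ} {A : Bool → ℕ → Prop}

/-- height of a hub -/
def sg (h : Bool) : ℝ := if h then 1 else -1

/-- the drawing -/
noncomputable def dr (M : ℕ) : Bool ⊕ Fin (M + 1) → ℝ × ℝ
  | Sum.inl h => (0, sg h)
  | Sum.inr i => (((i : ℕ) : ℝ), 0)

theorem sg_ne (h : Bool) : sg h ≠ 0 := by
  unfold sg
  cases h <;> norm_num

theorem sg_inj {h h' : Bool} (e : sg h = sg h') : h = h' := by
  unfold sg at e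
  cases h <;> cases h' <;> first | rfl | (norm_num at e)

theorem dr_inj (M : ℕ) : Function.Injective (dr M) := by
  rintro (h | i) (h' | j) e
  · simp only [dr, Prod.mk.injEq] at e
    rw [sg_inj e.2]
  · simp only [dr, Prod.mk.injEq] at e
    exact absurd e.2 (sg_ne h)
  · simp only [dr, Prod.mk.injEq] at e
    exact absurd e.2.symm (sg_ne h')
  · simp only [dr, Prod.mk.injEq] at e
    have : (i : ℕ) = j := by exact_mod_cast e.1
    rw [Fin.ext this]

/-- the points of the edges -/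
theorem seg_cases {a b : Bool ⊕ Fin (M + 1)} (h : (HG M A).Adj a b) {p : ℝ × ℝ}
    (hp : p ∈ segment ℝ (dr M a) (dr M b)) :
    (∃ (g : Bool) (i : Fin (M + 1)) (β : ℝ), 0 ≤ β ∧ β ≤ 1 ∧
      p = (β * (i : ℕ), (1 - β) * sg g) ∧ s(a, b) = s(Sum.inl g, Sum.inr i)) ∨
    (∃ (i j : Fin (M + 1)) (t : ℝ), (i : ℕ) + 1 = j ∧ 0 ≤ t ∧ t ≤ 1 ∧
      p = (((i : ℕ) : ℝ) + t, 0) ∧ s(a, b) = s(Sum.inr i, Sum.inr j)) := by
  obtain ⟨α, β, hα, hβ, hs, rfl⟩ := hp
  have hα' : α = 1 - β := by linarith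
  have hβ' : β = 1 - α := by linarith
  rcases a with g | i <;> rcases b with g' | j
  · exact h.elim
  · left
    refine ⟨g, j, β, hβ, by linarith, ?_, rfl⟩
    simp only [dr, hα', Prod.smul_mk, smul_eq_mul, Prod.mk_add_mk]
    ext <;> simp
  · left
    refine ⟨g', i, α, hα, by linarith, ?_, Sym2.eq_swap⟩
    simp only [dr, hβ', Prod.smul_mk, smul_eq_mul, Prod.mk_add_mk]
    ext <;> simp
  · right
    rcases h with h | h
    · refine ⟨i, j, β, h, hβ, by linarith, ?_, rfl⟩
      have e : ((j : ℕ) : ℝ) = (i : ℕ) + 1 := by rw [← h]; push_cast; ring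
      simp only [dr, hα', Prod.smul_mk, smul_eq_mul, Prod.mk_add_mk, e]
      ext
      · simp only; ring
      · simp
    · refine ⟨j, i, α, h, hα, by linarith, ?_, Sym2.eq_swap⟩
      have e : ((i : ℕ) : ℝ) = (j : ℕ) + 1 := by rw [← h]; push_cast; ring
      simp only [dr, hβ', Prod.smul_mk, smul_eq_mul, Prod.mk_add_mk, e]
      ext
      · simp only; ring
      · simp

theorem end_of_eq {V : Type} {a b x y v : V} (h : s(a, b) = s(x, y)) (hv : v = x ∨ v = y) :
    v = a ∨ v = b := by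
  rw [Sym2.eq_iff] at h
  rcases h with ⟨rfl, rfl⟩ | ⟨rfl, rfl⟩
  · exact hv
  · exact hv.symm

theorem cross {a b c d : Bool ⊕ Fin (M + 1)} (h : (HG M A).Adj a b) (h' : (HG M A).Adj c d)
    (hne : s(a, b) ≠ s(c, d)) {p : ℝ × ℝ} (hp : p ∈ segment ℝ (dr M a) (dr M b))
    (hp' : p ∈ segment ℝ (dr M c) (dr M d)) :
    ∃ v, (v = a ∨ v = b) ∧ (v = c ∨ v = d) ∧ p = dr M v := by
  rcases seg_cases h hp with ⟨g, i, β, b0, b1, e1, e2⟩ | ⟨i, j, t, hij, t0, t1, e1, e2⟩ <;>
    rcases seg_cases h' hp' with ⟨g', i', β', b0', b1', e1', e2'⟩ |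
      ⟨i', j', t', hij', t0', t1', e1', e2'⟩
  · rw [e1, Prod.mk.injEq] at e1'
    obtain ⟨u1, u2⟩ := e1'
    by_cases hg : g = g'
    · subst hg
      have hb : β = β' := by
        have := mul_right_cancel₀ (sg_ne g) u2
        linarith
      subst hb
      rcases eq_or_ne β 0 with hz | hz
      · refine ⟨Sum.inl g, end_of_eq e2 (Or.inl rfl), end_of_eq e2' (Or.inl rfl), ?_⟩
        rw [e1, hz]
        simp [dr]
      · exfalso
        have : ((i : ℕ) : ℝ) = (i' : ℕ) := mul_left_cancel₀ hz u1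
        have h3 : (i : ℕ) = i' := by exact_mod_cast this
        apply hne
        rw [e2, e2', Fin.ext h3]
    · have hs : sg g' = - sg g := by
        unfold sg
        cases g <;> cases g' <;> simp_all
      rw [hs] at u2
      have h5 : ((1 - β) + (1 - β')) * sg g = 0 := by linarith
      have h6 : (1 - β) + (1 - β') = 0 := (mul_eq_zero.mp h5).resolve_right (sg_ne g)
      have h7 : β = 1 := by linarith
      have h8 : β' = 1 := by linarith
      rw [h7, h8, one_mul, one_mul] at u1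
      have h3 : (i : ℕ) = i' := by exact_mod_cast u1
      have h4 : i = i' := Fin.ext h3
      subst h4
      refine ⟨Sum.inr i, end_of_eq e2 (Or.inr rfl), end_of_eq e2' (Or.inr rfl), ?_⟩
      rw [e1, h7]
      simp [dr]
  · rw [e1, Prod.mk.injEq] at e1'
    obtain ⟨u1, u2⟩ := e1'
    have h6 : 1 - β = 0 := (mul_eq_zero.mp u2).resolve_right (sg_ne g)
    have h7 : β = 1 := by linarith
    rw [h7, one_mul] at u1
    refine ⟨Sum.inr i, end_of_eq e2 (Or.inr rfl), end_of_eq e2' ?_, ?_⟩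
    · have k1 : ((i' : ℕ) : ℝ) ≤ (i : ℕ) := by linarith
      have k2 : ((i : ℕ) : ℝ) ≤ (i' : ℕ) + 1 := by linarith
      have k1' : (i' : ℕ) ≤ i := by exact_mod_cast k1
      have k2' : (i : ℕ) ≤ i' + 1 := by exact_mod_cast k2
      rcases Nat.lt_or_ge (i' : ℕ) i with k | k
      · right
        congr 1
        exact Fin.ext (by omega)
      · left
        congr 1
        exact Fin.ext (by omega)
    · rw [e1, h7]
      simp [dr]
  · rw [e1, Prod.mk.injEq] at e1'
    obtain ⟨u1, u2⟩ := e1'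
    have h6 : 1 - β' = 0 := (mul_eq_zero.mp u2.symm).resolve_right (sg_ne g')
    have h7 : β' = 1 := by linarith
    rw [h7, one_mul] at u1
    refine ⟨Sum.inr i', end_of_eq e2 ?_, end_of_eq e2' (Or.inr rfl), ?_⟩
    · have k1 : ((i : ℕ) : ℝ) ≤ (i' : ℕ) := by linarith
      have k2 : ((i' : ℕ) : ℝ) ≤ (i : ℕ) + 1 := by linarith
      have k1' : (i : ℕ) ≤ i' := by exact_mod_cast k1
      have k2' : (i' : ℕ) ≤ i + 1 := by exact_mod_cast k2
      rcases Nat.lt_or_ge (i : ℕ) i' with k | k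
      · right
        congr 1
        exact Fin.ext (by omega)
      · left
        congr 1
        exact Fin.ext (by omega)
    · rw [e1]
      simp only [dr]
      rw [← u1]
  · rw [e1, Prod.mk.injEq] at e1'
    obtain ⟨u1, -⟩ := e1'
    rcases lt_trichotomy (i : ℕ) i' with k | k | k
    · have k' : ((i : ℕ) : ℝ) + 1 ≤ (i' : ℕ) := by exact_mod_cast k
      have ht' : t' = 0 := by linarith
      have hij2 : i' = j := by
        have : ((i' : ℕ) : ℝ) = (i : ℕ) + 1 := by linarith
        have h3 : (i' : ℕ) = i + 1 := by exact_mod_cast this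
        exact Fin.ext (by omega)
      refine ⟨Sum.inr i', end_of_eq e2 (Or.inr (by rw [hij2])), end_of_eq e2' (Or.inl rfl), ?_⟩
      rw [e1, u1, ht']
      simp [dr]
    · exfalso
      have h4 : i = i' := Fin.ext k
      subst h4
      apply hne
      rw [e2, e2']
      have : j = j' := Fin.ext (by omega)
      rw [this]
    · have k' : ((i' : ℕ) : ℝ) + 1 ≤ (i : ℕ) := by exact_mod_cast k
      have ht : t = 0 := by linarith
      have hij2 : i = j' := by
        have : ((i : ℕ) : ℝ) = (i' : ℕ) + 1 := by linarith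
        have h3 : (i : ℕ) = i' + 1 := by exact_mod_cast this
        exact Fin.ext (by omega)
      refine ⟨Sum.inr i, end_of_eq e2 (Or.inl rfl), end_of_eq e2' (Or.inr (by rw [hij2])), ?_⟩
      rw [e1, ht]
      simp [dr]

theorem straightPlanar (hA : ∀ i, A true i ∨ A false i) (h0 : ∀ h, A h 0) :
    StraightPlanar (HG M A) := by
  refine ⟨dr M, dr_inj M, ?_, fun a b c d h h' hne p hp hp' => cross h h' hne hp hp'⟩
  intro v a b hab hv
  obtain ⟨w, hw⟩ : ∃ w, (HG M A).Adj v w := by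
    rcases v with h | i
    · exact ⟨Sum.inr ⟨0, by omega⟩, h0 h⟩
    · rcases hA i with h | h
      · exact ⟨Sum.inl true, h⟩
      · exact ⟨Sum.inl false, h⟩
  by_cases he : s(v, w) = s(a, b)
  · rw [Sym2.eq_iff] at he
    rcases he with ⟨rfl, -⟩ | ⟨rfl, -⟩
    · exact Or.inl rfl
    · exact Or.inr rfl
  · obtain ⟨u, hu1, hu2, hu3⟩ := cross hw hab he (left_mem_segment ℝ _ _) hv
    have := dr_inj M hu3
    subst this
    exact hu2

end Pool.Agent.Y281.CR
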