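import Pool.Agent.Y281.CR.Count
import Pool.Agent.Y281.CR.Conn
import Pool.Agent.Y281.CR.Plan

set_option autoImplicit false

namespace Pool.Agent.Y281.CR
open Classical

/-- the attachment pattern: all vertices `0, …, a` and then every `k`-th vertex is joined to both
hubs, the vertices in between are joined to one hub each, alternately -/
def pat (a k : ℕ) (h : Bool) (i : ℕ) : Prop :=
  (i - a) % k = 0 ∨ ((i - a) % k) % 2 = (if h then 1 else 0)

theorem pat_all {a k i : ℕ} : (∀ h, pat a k h i) ↔ (i - a) % k = 0 := by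
  constructor
  · intro h
    rcases h true with h1 | h1
    · exact h1
    · rcases h false with h2 | h2
      · exact h2
      · simp only [if_true, Bool.false_eq_true, if_false] at h1 h2
        omega
  · intro h b
    exact Or.inl h

theorem pat_or (a k i : ℕ) : pat a k true i ∨ pat a k false i := by
  unfold pat
  simp only [if_true, Bool.false_eq_true, if_false]
  omega

theorem pat_zero (a k : ℕ) (h : Bool) : pat a k h 0 := by
  left
  simp

theorem pat_lt {a k i : ℕ} (h : Bool) (hi : i ≤ a) : pat a k h i := by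
  left
  rw [Nat.sub_eq_zero_of_le hi, Nat.zero_mod]

theorem mod_succ {k j : ℕ} (hk : 1 ≤ k) : (j + 1) % k = 0 ∨ (j + 1) % k = j % k + 1 := by
  have h1 := Nat.mod_lt j hk
  rcases Nat.lt_or_ge (j % k + 1) k with h | h
  · right
    rw [Nat.add_mod]
    rcases Nat.lt_or_ge 1 k with h2 | h2
    · rw [Nat.mod_eq_of_lt h2, Nat.mod_eq_of_lt h]
    · omega
  · left
    have h2 : j % k + 1 = k := by omega
    rw [← Nat.mod_add_mod, h2, Nat.mod_self]

theorem pat_next {a k : ℕ} (hk : 1 ≤ k) (h : Bool) (i : ℕ) : pat a k h i ∨ pat a k h (i + 1) := by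
  rcases Nat.lt_or_ge i a with hi | hi
  · exact Or.inl (pat_lt h hi.le)
  · unfold pat
    have e : i + 1 - a = (i - a) + 1 := by omega
    rw [e]
    rcases mod_succ (k := k) (j := i - a) hk with h1 | h1
    · right; left; exact h1
    · rw [h1]
      cases h
      · simp only [Bool.false_eq_true, if_false]
        omega
      · simp only [if_true]
        omega

/-- the numbers of one block -/
noncomputable def bet {R : Type} [CommRing R] (z : R) : ℕ → R × R
  | 0 => (1, 0)
  | i + 1 => ((z - 1) * (bet z i).1 + (bet z i).2, z * (bet z i).1 + (bet z i).2)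

theorem GE_start {R : Type} [CommRing R] (z : R) (a k : ℕ) (i : ℕ) (hi : i ≤ a) :
    GE (pat a k) z i = ((z - 1) ^ i, 0) := by
  induction i with
  | zero => simp [GE]
  | succ i ih =>
    rw [GE, ih (by omega), if_pos (fun h => pat_lt h hi)]
    ext
    · simp only
      ring
    · rfl

theorem GE_block {R : Type} [CommRing R] (z : R) {a k : ℕ} (j : ℕ) (C : R)
    (h : GE (pat a k) z (a + k * j) = (C, 0)) (i : ℕ) (hi : i < k) :
    GE (pat a k) z (a + k * j + i) = (C * (bet z i).1, C * (bet z i).2) := by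
  induction i with
  | zero => simp [bet, h]
  | succ i ih =>
    rw [← add_assoc, GE, ih (by omega), if_neg]
    · ext
      · simp only [bet]; ring
      · simp only [bet]; ring
    · rw [pat_all]
      have e : a + k * j + i + 1 - a = (i + 1) + k * j := by omega
      rw [e, Nat.add_mul_mod_self_left, Nat.mod_eq_of_lt hi]
      omega

theorem GE_pat {R : Type} [CommRing R] (z : R) {a k : ℕ} (hk : 1 ≤ k) (j : ℕ) :
    GE (pat a k) z (a + k * j) = ((z - 1) ^ a * (bet z k).1 ^ j, 0) := by
  induction j with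
  | zero =>
    rw [mul_zero, add_zero, GE_start z a k a le_rfl]
    simp
  | succ j ih =>
    obtain ⟨k', rfl⟩ : ∃ k', k = k' + 1 := ⟨k - 1, by omega⟩
    have h1 := GE_block z j _ ih k' (by omega)
    have e : a + (k' + 1) * (j + 1) = a + (k' + 1) * j + k' + 1 := by ring
    rw [e, GE, h1, if_pos]
    · ext
      · simp only [bet]; ring
      · rfl
    · rw [pat_all]
      have e : a + (k' + 1) * j + k' + 1 - a = (k' + 1) * (j + 1) := by
        have : (k' + 1) * (j + 1) = (k' + 1) * j + k' + 1 := by ring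
        omega
      rw [e, Nat.mul_mod_right]

theorem bet_snd {R : Type} [CommRing R] (z : R) (i : ℕ) :
    (bet z (i + 1)).2 = (bet z (i + 1)).1 + (bet z i).1 := by
  simp only [bet]
  ring

theorem bet_rec {R : Type} [CommRing R] (z : R) (i : ℕ) :
    (bet z (i + 2)).1 = z * (bet z (i + 1)).1 + (bet z i).1 := by
  have h : (bet z (i + 2)).1 = (z - 1) * (bet z (i + 1)).1 + (bet z (i + 1)).2 := rfl
  rw [h, bet_snd]
  ring

theorem bet_map {R S : Type} [CommRing R] [CommRing S] (φ : R →+* S) (z : R) (i : ℕ) :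
    bet (φ z) i = (φ (bet z i).1, φ (bet z i).2) := by
  induction i with
  | zero => simp [bet]
  | succ i ih =>
    rw [bet, ih, bet]
    simp only [map_add, map_mul, map_sub, map_one]

/-- the roots of the chromatic polynomials -/
theorem root_mem {a k b : ℕ} (ha : 1 ≤ a) (hk : 1 ≤ k) (hb : 1 ≤ b) {z : ℂ}
    (h : z * ((z - 1) ^ a * (bet z k).1 ^ b) + z ^ (a + k * b) = 0) : z + 2 ∈ ChromRoots3P := by
  set M := a + k * b with hM
  have hM2 : 2 ≤ M := by
    have : 1 ≤ k * b := Nat.mul_pos hk hb
    omega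
  have hMall : ∀ h, pat a k h M := by
    rw [pat_all, hM, Nat.add_sub_cancel_left, Nat.mul_mod_right]
  let X : Polynomial ℂ := Polynomial.X
  let Z : Polynomial ℂ := Polynomial.X - 2
  let p : Polynomial ℂ := X * (X - 1) * (Z * ((Z - 1) ^ a * (bet Z k).1 ^ b) + Z ^ M)
  have hev : ∀ q : ℂ, p.eval q = q * (q - 1) * ((q - 2) *
      ((q - 2 - 1) ^ a * (bet (q - 2) k).1 ^ b) + (q - 2) ^ M) := by
    intro q
    have h1 := bet_map (Polynomial.evalRingHom q) Z k
    have h2 : Polynomial.evalRingHom q Z = q - 2 := by simp [Z]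
    rw [h2] at h1
    rw [h1]
    simp [p, X, Z]
  refine ⟨Bool ⊕ Fin (M + 1), inferInstance, HG M (pat a k), p, ?_, ?_, ?_, ?_⟩
  · exact threeConnected hM2 (pat_or a k) (pat_zero a k) (fun h => pat_lt h ha) hMall
  · exact straightPlanar (pat_or a k) (pat_zero a k)
  · intro n
    rw [count (pat_or a k) (pat_next hk) (pat_zero a k) hMall, hev, hM, GE_pat _ hk b]
  · rw [hev]
    have e : z + 2 - 2 = z := by ring
    rw [e, h, mul_zero]

end Pool.Agent.Y281.CR
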