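import Pool.Agent.Y281.CR.Pat
import Pool.Agent.Y281.CR.Ana

set_option autoImplicit false

namespace Pool.Agent.Y281.CR
open Filter Topology Metric

/-- the numbers `β_k` as polynomials -/
noncomputable def BP (k : ℕ) : Polynomial ℂ := (bet (Polynomial.X : Polynomial ℂ) k).1

theorem BP_eval (k : ℕ) (z : ℂ) : (BP k).eval z = (bet z k).1 := by
  have h1 := bet_map (Polynomial.evalRingHom z) (Polynomial.X : Polynomial ℂ) k
  have h2 : Polynomial.evalRingHom z (Polynomial.X : Polynomial ℂ) = z := by simp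
  rw [h2] at h1
  rw [h1]
  rfl

theorem bet_one (k : ℕ) : (bet (1 : ℂ) (k + 2)).1 = (Nat.fib (k + 1) : ℂ) ∧
    (bet (1 : ℂ) (k + 3)).1 = (Nat.fib (k + 2) : ℂ) := by
  induction k with
  | zero =>
    constructor
    · simp [bet]
    · simp [bet]
  | succ k ih =>
    refine ⟨ih.2, ?_⟩
    rw [bet_rec (1 : ℂ) (k + 2), ih.1]
    have e : (bet (1 : ℂ) (k + 2 + 1)).1 = (Nat.fib (k + 2) : ℂ) := ih.2
    rw [e]
    have : Nat.fib (k + 1 + 2) = Nat.fib (k + 1) + Nat.fib (k + 2) := Nat.fib_add_two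
    rw [this]
    push_cast
    ring

theorem BP_one {k : ℕ} (hk : 2 ≤ k) : (BP k).eval 1 ≠ 0 := by
  obtain ⟨j, rfl⟩ : ∃ j, k = j + 2 := ⟨k - 2, by omega⟩
  rw [BP_eval, (bet_one j).1]
  have : 0 < Nat.fib (j + 1) := Nat.fib_pos.mpr (by omega)
  exact_mod_cast this.ne'

theorem nonconst {k : ℕ} (hk : 2 ≤ k) {z0 : ℂ} (h0 : z0 ≠ 0) (h1 : z0 ≠ 1)
    (hB : (BP k).eval z0 ≠ 0) (θ : ℝ) :
    ¬ ∀ᶠ z in 𝓝 z0, deriv (fun z : ℂ => (z - 1) / z) z / ((z - 1) / z) +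
      θ * (deriv (fun z : ℂ => (BP k).eval z / z ^ k) z / ((BP k).eval z / z ^ k)) = 0 := by
  intro hcon
  let p : Polynomial ℂ := BP k + Polynomial.C (θ : ℂ) * ((Polynomial.X - 1) *
    (Polynomial.X * (BP k).derivative - Polynomial.C (k : ℂ) * BP k))
  have hp : ∀ᶠ z in 𝓝 z0, p.eval z = 0 := by
    filter_upwards [hcon, isOpen_ne.mem_nhds h0, isOpen_ne.mem_nhds h1,
      (BP k).continuous.continuousAt.eventually_ne hB] with z hz z0' z1' zB
    have d1 : deriv (fun z : ℂ => (z - 1) / z) z = (1 * z - (z - 1) * 1) / z ^ 2 := by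
      apply HasDerivAt.deriv
      exact ((hasDerivAt_id z).sub_const 1).div (hasDerivAt_id z) z0'
    have d2 : deriv (fun z : ℂ => (BP k).eval z / z ^ k) z =
        ((BP k).derivative.eval z * z ^ k - (BP k).eval z * (k * z ^ (k - 1))) / (z ^ k) ^ 2 := by
      apply HasDerivAt.deriv
      exact ((BP k).hasDerivAt z).div (hasDerivAt_pow k z) (pow_ne_zero _ z0')
    rw [d1, d2] at hz
    obtain ⟨j, rfl⟩ : ∃ j, k = j + 1 := ⟨k - 1, by omega⟩
    have z1'' : z - 1 ≠ 0 := sub_ne_zero.mpr z1'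
    simp only [Nat.add_sub_cancel] at hz
    have hzz : z ≠ 0 := z0'
    have zBB : (BP (j + 1)).eval z ≠ 0 := zB
    have e : ∀ (a b c t : ℂ), a ≠ 0 → b ≠ 0 → c ≠ 0 →
        (1 * b - a * 1) / b ^ 2 / (a / b) + t * ((p.eval z * b ^ (j + 1) - c * ((j + 1 : ℕ) * b ^ j)) /
          (b ^ (j + 1)) ^ 2 / (c / b ^ (j + 1))) = 0 → True := by
      intros; trivial
    have key : (BP (j + 1)).eval z + θ * ((z - 1) * (z * (BP (j + 1)).derivative.eval z -
        ((j + 1 : ℕ) : ℂ) * (BP (j + 1)).eval z)) = z * (z - 1) * (BP (j + 1)).eval z *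
        ((1 * z - (z - 1) * 1) / z ^ 2 / ((z - 1) / z) +
        θ * ((((BP (j + 1)).derivative.eval z) * z ^ (j + 1) - (BP (j + 1)).eval z *
          (((j + 1 : ℕ) : ℂ) * z ^ j)) / (z ^ (j + 1)) ^ 2 / ((BP (j + 1)).eval z / z ^ (j + 1)))) := by
      field_simp
      ring
    simp only [p, Polynomial.eval_add, Polynomial.eval_mul, Polynomial.eval_C, Polynomial.eval_sub,
      Polynomial.eval_X, Polynomial.eval_one]
    rw [key, hz, mul_zero]
  have hinf : Set.Infinite {z | p.IsRoot z} := infinite_of_mem_nhds z0 hp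
  have hp0 : p = 0 := Polynomial.eq_zero_of_infinite_isRoot p hinf
  have h2 : p.eval 1 = (BP k).eval 1 := by simp [p]
  rw [hp0, Polynomial.eval_zero] at h2
  exact BP_one hk h2.symm

/-- the basic density statement -/
theorem dense_at {k : ℕ} (hk : 2 ≤ k) {z0 : ℂ} (h0 : z0 ≠ 0) (h1 : z0 ≠ 1)
    (hB : (bet z0 k).1 ≠ 0)
    (hL : Real.log ‖(z0 - 1) / z0‖ * Real.log ‖(bet z0 k).1 / z0 ^ k‖ < 0) :
    z0 + 2 ∈ closure ChromRoots3P := by
  rw [Metric.mem_closure_iff]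
  intro ε hε
  have hB' : (BP k).eval z0 ≠ 0 := by rw [BP_eval]; exact hB
  obtain ⟨z, hz1, hz2, a, b, ha, hb, hz3⟩ := dense_roots (R1 := fun z => (z - 1) / z)
    (R2 := fun z => (BP k).eval z / z ^ k) (z0 := z0) h0
    ((analyticAt_id.sub analyticAt_const).div analyticAt_id h0)
    ((AnalyticOnNhd.eval_polynomial (BP k) z0 (Set.mem_univ _)).div (analyticAt_id.pow k)
      (pow_ne_zero _ h0))
    (div_ne_zero (sub_ne_zero.mpr h1) h0) (div_ne_zero hB' (pow_ne_zero _ h0))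
    (by simp only [BP_eval]; exact hL) (fun θ _ => nonconst hk h0 h1 hB' θ) hε
  refine ⟨z + 2, root_mem (a := a) (k := k) (b := b) ha (by omega) hb ?_, ?_⟩
  · simp only [BP_eval] at hz3
    rw [div_pow, div_pow, ← pow_mul] at hz3
    have hza : z ^ a ≠ 0 := pow_ne_zero _ hz2
    have hzk : z ^ (k * b) ≠ 0 := pow_ne_zero _ hz2
    have : z * ((z - 1) ^ a * (bet z k).1 ^ b) = -(z ^ (a + k * b)) := by
      rw [pow_add]
      field_simp at hz3
      linear_combination hz3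
    rw [this]
    ring
  · rw [dist_eq_norm]
    have : z0 + 2 - (z + 2) = -(z - z0) := by ring
    rw [this, norm_neg]
    exact hz1

/-- closed form -/
theorem closed {l z : ℂ} (hl : l ≠ 0) (hz : z = l - l⁻¹) (k : ℕ) :
    (l ^ 2 + 1) * (bet z k).1 = l * (l - 1) * l ^ k + (1 + l) * (-l⁻¹) ^ k ∧
    (l ^ 2 + 1) * (bet z (k + 1)).1 = l * (l - 1) * l ^ (k + 1) + (1 + l) * (-l⁻¹) ^ (k + 1) := by
  induction k with
  | zero =>
    constructor
    · simp [bet]; ring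
    · simp [bet]
      rw [hz]
      field_simp
      ring
  | succ k ih =>
    refine ⟨ih.2, ?_⟩
    have h := bet_rec z k
    have e : (bet z (k + 1 + 1)).1 = z * (bet z (k + 1)).1 + (bet z k).1 := h
    have e2 : (l ^ 2 + 1) * (bet z (k + 1 + 1)).1 = z * ((l ^ 2 + 1) * (bet z (k + 1)).1) +
        (l ^ 2 + 1) * (bet z k).1 := by rw [e]; ring
    rw [e2, ih.1, ih.2, hz]
    have hll : l * l⁻¹ = 1 := mul_inv_cancel₀ hl
    have m1 : (l - l⁻¹) * (l * (l - 1) * l ^ (k + 1)) + l * (l - 1) * l ^ k =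
        l * (l - 1) * l ^ (k + 1 + 1) := by
      have : l⁻¹ * l ^ (k + 1) = l ^ k := by
        rw [pow_succ]
        field_simp
      calc (l - l⁻¹) * (l * (l - 1) * l ^ (k + 1)) + l * (l - 1) * l ^ k =
          l * (l - 1) * (l * l ^ (k + 1)) - l * (l - 1) * (l⁻¹ * l ^ (k + 1)) +
            l * (l - 1) * l ^ k := by ring
        _ = _ := by rw [this]; ring
    have m2 : (l - l⁻¹) * ((1 + l) * (-l⁻¹) ^ (k + 1)) + (1 + l) * (-l⁻¹) ^ k =
        (1 + l) * (-l⁻¹) ^ (k + 1 + 1) := by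
      have : l * (-l⁻¹) ^ (k + 1) = -(-l⁻¹) ^ k := by
        rw [pow_succ]
        linear_combination (-(-l⁻¹) ^ k) * hll
      calc (l - l⁻¹) * ((1 + l) * (-l⁻¹) ^ (k + 1)) + (1 + l) * (-l⁻¹) ^ k =
          (1 + l) * (l * (-l⁻¹) ^ (k + 1)) + (1 + l) * ((-l⁻¹) * (-l⁻¹) ^ (k + 1)) +
            (1 + l) * (-l⁻¹) ^ k := by ring
        _ = _ := by rw [this]; ring
    linear_combination m1 + m2

theorem lim {l z : ℂ} (hl : 1 < ‖l‖) (hz : z = l - l⁻¹) :
    l ^ 2 + 1 ≠ 0 ∧ l * (l - 1) ≠ 0 ∧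
    Tendsto (fun k : ℕ => (bet z k).1 / l ^ k) atTop (𝓝 (l * (l - 1) / (l ^ 2 + 1))) := by
  have hl0 : l ≠ 0 := by
    intro h
    rw [h, norm_zero] at hl
    linarith
  have hl1 : l ≠ 1 := by
    intro h
    rw [h, norm_one] at hl
    exact lt_irrefl _ hl
  have hl2 : l ^ 2 + 1 ≠ 0 := by
    intro h
    have : l ^ 2 = -1 := by linear_combination h
    have h2 : ‖l‖ ^ 2 = 1 := by rw [← norm_pow, this, norm_neg, norm_one]
    nlinarith
  refine ⟨hl2, mul_ne_zero hl0 (sub_ne_zero.mpr hl1), ?_⟩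
  have h1 : ∀ k : ℕ, (bet z k).1 / l ^ k = l * (l - 1) / (l ^ 2 + 1) +
      (1 + l) / (l ^ 2 + 1) * (-l⁻¹ / l) ^ k := by
    intro k
    have h := (closed hl0 hz k).1
    have hk : l ^ k ≠ 0 := pow_ne_zero _ hl0
    rw [div_pow, eq_comm]
    have h3 : (bet z k).1 = (l * (l - 1) * l ^ k + (1 + l) * (-l⁻¹) ^ k) / (l ^ 2 + 1) := by
      rw [eq_div_iff hl2, ← h]
      ring
    rw [h3]
    field_simp
  simp only [h1]
  have h4 : Tendsto (fun k : ℕ => (-l⁻¹ / l) ^ k) atTop (𝓝 0) := by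
    apply tendsto_pow_atTop_nhds_zero_of_norm_lt_one
    rw [norm_div, norm_neg, norm_inv]
    have h5 : ‖l‖⁻¹ < 1 := inv_lt_one_of_one_lt₀ hl
    rw [div_lt_one (by linarith)]
    linarith
  have h5 := (h4.const_mul ((1 + l) / (l ^ 2 + 1))).const_add (l * (l - 1) / (l ^ 2 + 1))
  simpa using h5

end Pool.Agent.Y281.CR
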